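import Pool.Agent.Helper91.TY.Swap
import Pool.Agent.Helper33.CV.Perm

/-!
MP_8ee768_co, project TH-Y': permutations of the points on all lanes of a packed list.

A lane is a number with `W` bits. `exC C l X` does the masked exchanges of the list `l` on the lanes
`i` with bit `C_i = 1`. `runN R net P X` does this for all members of `net`, where the selecting
bits of lane `i` are the bits of the lane `i` of `P`.
-/

set_option autoImplicit false

namespace Pool.Agent.Helper16.TY

open Finset
open Pool.Agent.Helper63.SIMD
open Pool.Agent.Helper91.TY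

/-- bits of an exchange, without any assumption -/
theorem testBit_dswap_raw (s M x j : ℕ) :
    (dswap s M x).testBit j =
      ((x.testBit j ^^ ((x.testBit (j + s) ^^ x.testBit j) && M.testBit j)) ^^
        (decide (s ≤ j) && ((x.testBit j ^^ x.testBit (j - s)) && M.testBit (j - s)))) := by
  have e : dswap s M x =
      (x ^^^ (((x >>> s) ^^^ x) &&& M)) ^^^ ((((x >>> s) ^^^ x) &&& M) <<< s) := rfl
  rw [e, Nat.testBit_xor, Nat.testBit_xor, Nat.testBit_and, Nat.testBit_xor,
    Nat.testBit_shiftRight, Nat.testBit_shiftLeft, Nat.add_comm s j]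
  by_cases h : s ≤ j
  · have h1 : decide (j ≥ s) = true := by simpa using h
    rw [h1, Nat.testBit_and, Nat.testBit_xor, Nat.testBit_shiftRight, Nat.add_comm s (j - s),
      Nat.sub_add_cancel h]
  · have h1 : decide (j ≥ s) = false := by simpa using h
    rw [h1, Bool.false_and, Bool.false_and]

/-- an exchange on packed lanes, if no lane of the mask reaches the next lane -/
theorem fld_dswap_gen {W s M X : ℕ} (hM : ∀ i j, (fld W M i).testBit j = true → j + s < W)
    (i : ℕ) : fld W (dswap s M X) i = dswap s (fld W M i) (fld W X i) := by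
  refine Nat.eq_of_testBit_eq fun j => ?_
  rw [testBit_fld, testBit_dswap_raw, testBit_dswap_raw]
  have hm : ∀ k, k < W → M.testBit (W * i + k) = (fld W M i).testBit k := by
    intro k hk
    rw [testBit_fld, decide_eq_true hk, Bool.true_and]
  by_cases hj : j < W
  · rw [decide_eq_true hj, Bool.true_and]
    have e1 : (fld W X i).testBit j = X.testBit (W * i + j) := by
      rw [testBit_fld, decide_eq_true hj, Bool.true_and]
    have e2 : ((X.testBit (W * i + j + s) ^^ X.testBit (W * i + j)) && M.testBit (W * i + j)) =
        (((fld W X i).testBit (j + s) ^^ (fld W X i).testBit j) && (fld W M i).testBit j) := by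
      rw [hm j hj, e1]
      by_cases h : (fld W M i).testBit j = true
      · have h1 := hM i j h
        rw [testBit_fld (W := W) (X := X) (i := i) (j := j + s), decide_eq_true h1, Bool.true_and,
          Nat.add_assoc]
      · rw [Bool.not_eq_true] at h
        rw [h, Bool.and_false, Bool.and_false]
    have e3 : (decide (s ≤ W * i + j) &&
          ((X.testBit (W * i + j) ^^ X.testBit (W * i + j - s)) && M.testBit (W * i + j - s))) =
        (decide (s ≤ j) && (((fld W X i).testBit j ^^ (fld W X i).testBit (j - s)) &&
          (fld W M i).testBit (j - s))) := by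
      by_cases h : s ≤ j
      · have h1 : W * i + j - s = W * i + (j - s) := by omega
        have h9 : (fld W X i).testBit (j - s) = X.testBit (W * i + (j - s)) := by
          rw [testBit_fld, decide_eq_true (show j - s < W by omega), Bool.true_and]
        rw [decide_eq_true h, decide_eq_true (show s ≤ W * i + j by omega), h1,
          hm (j - s) (by omega), e1, h9]
      · rw [decide_eq_false h, Bool.false_and]
        by_cases h2 : s ≤ W * i + j
        · have hW : 0 < W := by omega
          have h3 : M.testBit (W * i + j - s) = false := by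
            by_contra h4
            rw [Bool.not_eq_false] at h4
            set K := W * i + j - s with hK
            have h5 := hM (K / W) (K % W) (by
              rw [testBit_fld, decide_eq_true (Nat.mod_lt _ hW), Bool.true_and, Nat.div_add_mod]
              exact h4)
            have h6 := Nat.div_add_mod K W
            have h7 : W * (K / W) + (K % W + s) = W * i + j := by omega
            have h8 : (W * (K / W) + (K % W + s)) % W = K % W + s := by
              rw [Nat.mul_add_mod, Nat.mod_eq_of_lt h5]
            rw [h7, Nat.mul_add_mod, Nat.mod_eq_of_lt hj] at h8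
            omega
          rw [h3, Bool.and_false, Bool.and_false]
        · rw [decide_eq_false h2, Bool.false_and]
    rw [e2, e3, e1]
  · rw [decide_eq_false hj, Bool.false_and]
    have hz : ∀ k, W ≤ k → (fld W X i).testBit k = false := by
      intro k hk
      rw [testBit_fld, decide_eq_false (by omega), Bool.false_and]
    have hz2 : ∀ k, W ≤ k → (fld W M i).testBit k = false := by
      intro k hk
      rw [testBit_fld, decide_eq_false (by omega), Bool.false_and]
    rw [hz j (by omega), hz2 j (by omega), Bool.and_false, Bool.xor_false, Bool.false_xor]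
    by_cases h : s ≤ j
    · by_cases h2 : (fld W M i).testBit (j - s) = true
      · have := hM i _ h2
        omega
      · rw [Bool.not_eq_true] at h2
        rw [h2, Bool.and_false, Bool.and_false]
    · rw [decide_eq_false h, Bool.false_and]

theorem dswap_zero_mask (s x : ℕ) : dswap s 0 x = x := by
  show (x ^^^ (((x >>> s) ^^^ x) &&& 0)) ^^^ ((((x >>> s) ^^^ x) &&& 0) <<< s) = x
  simp

theorem dswap_zero (s M : ℕ) : dswap s M 0 = 0 := by
  show (0 ^^^ (((0 >>> s) ^^^ 0) &&& M)) ^^^ ((((0 >>> s) ^^^ 0) &&& M) <<< s) = 0
  simp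

/-- bits of a packed number -/
theorem testBit_pk {W N : ℕ} {a : ℕ → ℕ} (hW : 0 < W) (ha : ∀ i < N, a i < 2 ^ W) (j : ℕ) :
    (pk W N a).testBit j = (decide (j < W * N) && (a (j / W)).testBit (j % W)) := by
  by_cases h : j < W * N
  · have h1 : j / W < N := Nat.div_lt_of_lt_mul h
    have h2 := congrArg (fun v => Nat.testBit v (j % W)) (fld_pk ha h1)
    simp only [testBit_fld] at h2
    rw [Nat.div_add_mod, decide_eq_true (Nat.mod_lt j hW), Bool.true_and] at h2
    rw [h2, decide_eq_true h, Bool.true_and]
  · rw [decide_eq_false h, Bool.false_and]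
    exact Nat.testBit_lt_two_pow (lt_of_lt_of_le (pk_lt ha)
      (Nat.pow_le_pow_right (by norm_num) (by omega)))

/-- the selecting bits, one in every lane -/
theorem land_rep {W N : ℕ} (hW : 0 < W) (P : ℕ) :
    P &&& rep W N = pk W N (fun i => (P.testBit (W * i)).toNat) := by
  have h2W : 2 ≤ 2 ^ W := by
    calc 2 = 2 ^ 1 := by norm_num
      _ ≤ 2 ^ W := Nat.pow_le_pow_right (by norm_num) hW
  refine Nat.eq_of_testBit_eq fun j => ?_
  have h1 : (rep W N).testBit j = (decide (j < W * N) && (1 : ℕ).testBit (j % W)) := by
    rw [← testBit_mul_rep hW (by omega), one_mul]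
  rw [Nat.testBit_and, h1, testBit_pk hW]
  · by_cases h : j < W * N
    · rw [decide_eq_true h, Bool.true_and, Bool.true_and]
      by_cases h3 : j % W = 0
      · have h4 : W * (j / W) = j := by
          have := Nat.div_add_mod j W
          omega
        rw [h3, h4]
        cases P.testBit j <;> rfl
      · have h4 : (1 : ℕ).testBit (j % W) = false :=
          Nat.testBit_lt_two_pow (Nat.one_lt_two_pow h3)
        rw [h4, Bool.and_false]
        have h5 : (P.testBit (W * (j / W))).toNat < 2 ^ (j % W) := by
          have h6 : 1 < 2 ^ (j % W) := Nat.one_lt_two_pow h3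
          exact lt_of_le_of_lt (Bool.toNat_le _) h6
        exact (Nat.testBit_lt_two_pow h5).symm
    · rw [decide_eq_false h, Bool.false_and, Bool.false_and, Bool.and_false]
  · intro i _
    exact lt_of_le_of_lt (Bool.toNat_le _) (by omega)

/-- the conditional exchange -/
theorem fld_dswap_sel {W N s M : ℕ} (hW : 0 < W) (hM : M <<< s < 2 ^ W) (P X : ℕ) {i : ℕ}
    (hi : i < N) :
    fld W (dswap s (Nat.mul M (Nat.land P (rep W N))) X) i =
      bif P.testBit (W * i) then dswap s M (fld W X i) else fld W X i := by
  have e : Nat.mul M (Nat.land P (rep W N)) = M * (P &&& rep W N) := rfl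
  have hM' : M < 2 ^ W := by
    refine lt_of_le_of_lt ?_ hM
    rw [Nat.shiftLeft_eq]
    exact Nat.le_mul_of_pos_right _ (Nat.two_pow_pos s)
  have hb : ∀ i : ℕ, M * (P.testBit (W * i)).toNat = if P.testBit (W * i) = true then M else 0 := by
    intro i
    cases P.testBit (W * i) <;> simp
  have hlt : ∀ i < N, M * (P.testBit (W * i)).toNat < 2 ^ W := by
    intro i _
    rw [hb]
    split_ifs
    · exact hM'
    · exact Nat.two_pow_pos W
  rw [e, land_rep hW, mul_pk, fld_dswap_gen]
  · rw [fld_pk hlt hi, hb]
    cases P.testBit (W * i)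
    · rw [if_neg Bool.false_ne_true, dswap_zero_mask]
      rfl
    · rfl
  · intro k j hj
    by_cases hk : k < N
    · rw [fld_pk hlt hk, hb] at hj
      split_ifs at hj
      · by_contra h
        have h1 : (M <<< s).testBit (j + s) = true := by
          rw [Nat.testBit_shiftLeft]
          simp [hj]
        rw [Nat.testBit_lt_two_pow (lt_of_lt_of_le hM
          (Nat.pow_le_pow_right (by norm_num) (by omega)))] at h1
        exact Bool.false_ne_true h1
      · rw [Nat.zero_testBit] at hj
        exact absurd hj Bool.false_ne_true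
    · rw [testBit_fld, testBit_pk hW hlt, decide_eq_false (p := _ < W * N), Bool.false_and,
        Bool.and_false] at hj
      · exact absurd hj Bool.false_ne_true
      · intro h
        apply hk
        exact Nat.lt_of_mul_lt_mul_left (lt_of_le_of_lt (Nat.le_add_right _ _) h)

/-! ## lists of exchanges -/

/-- exchanges on one number -/
def exS : List (ℕ × ℕ) → ℕ → ℕ
  | [], x => x
  | p :: l, x => exS l (dswap p.1 p.2 x)

/-- exchanges on the lanes selected by `C` -/
def exC (C : ℕ) (l : List (ℕ × ℕ)) : ℕ → ℕ :=
  List.rec (motive := fun _ => ℕ → ℕ) (fun x => x)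
    (fun p _ ih x => bif Nat.beq x 0 then 0 else ih (dswap p.1 (Nat.mul p.2 C) x)) l

theorem exC_zero (C : ℕ) (l : List (ℕ × ℕ)) : exC C l 0 = 0 := by
  cases l <;> rfl

theorem exC_cons (C : ℕ) (p : ℕ × ℕ) (l : List (ℕ × ℕ)) (x : ℕ) :
    exC C (p :: l) x = exC C l (dswap p.1 (Nat.mul p.2 C) x) := by
  by_cases h : x = 0
  · rw [h, dswap_zero, exC_zero, exC_zero]
  · have e : exC C (p :: l) x =
        bif Nat.beq x 0 then 0 else exC C l (dswap p.1 (Nat.mul p.2 C) x) := rfl
    have h1 : Nat.beq x 0 = false := by
      rw [Bool.eq_false_iff, Ne, Nat.beq_eq]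
      exact h
    rw [e, h1, cond_false]

/-- all masks stay below bit `n` -/
def okL (n : ℕ) : List (ℕ × ℕ) → Bool
  | [] => true
  | p :: l => Nat.blt (Nat.shiftLeft p.2 p.1) (2 ^ n) && okL n l

theorem fld_exC {W N : ℕ} (hW : 0 < W) (P : ℕ) {i : ℕ} (hi : i < N) {l : List (ℕ × ℕ)}
    (hl : okL W l = true) (X : ℕ) :
    fld W (exC (Nat.land P (rep W N)) l X) i =
      bif P.testBit (W * i) then exS l (fld W X i) else fld W X i := by
  induction l generalizing X with
  | nil => cases P.testBit (W * i) <;> rfl
  | cons p l ih =>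
    have h1 : (Nat.blt (Nat.shiftLeft p.2 p.1) (2 ^ W) && okL W l) = true := hl
    rw [Bool.and_eq_true, Nat.blt_eq] at h1
    rw [exC_cons, ih h1.2, fld_dswap_sel hW h1.1 P X hi]
    cases P.testBit (W * i) <;> rfl

/-- the network -/
def runN (R : ℕ) (es : List (List (ℕ × ℕ))) : ℕ → ℕ → ℕ :=
  List.rec (motive := fun _ => ℕ → ℕ → ℕ) (fun _ X => X)
    (fun e _ ih P X => bif Nat.beq X 0 then 0 else
      ih (Nat.shiftRight P 1) (exC (Nat.land P R) e X)) es

theorem runN_zero (R : ℕ) (es : List (List (ℕ × ℕ))) (P : ℕ) : runN R es P 0 = 0 := by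
  cases es <;> rfl

theorem runN_cons (R : ℕ) (e : List (ℕ × ℕ)) (es : List (List (ℕ × ℕ))) (P X : ℕ) :
    runN R (e :: es) P X = runN R es (Nat.shiftRight P 1) (exC (Nat.land P R) e X) := by
  by_cases h : X = 0
  · rw [h, exC_zero, runN_zero, runN_zero]
  · have e1 : runN R (e :: es) P X = bif Nat.beq X 0 then 0 else
      runN R es (Nat.shiftRight P 1) (exC (Nat.land P R) e X) := rfl
    have h1 : Nat.beq X 0 = false := by
      rw [Bool.eq_false_iff, Ne, Nat.beq_eq]
      exact h
    rw [e1, h1, cond_false]

/-- the network on one lane -/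
def runS : List (List (ℕ × ℕ)) → (ℕ → Bool) → ℕ → ℕ
  | [], _, x => x
  | e :: es, c, x => runS es (fun k => c (k + 1)) (bif c 0 then exS e x else x)

theorem fld_runN {W N : ℕ} (hW : 0 < W) {i : ℕ} (hi : i < N) {es : List (List (ℕ × ℕ))}
    (hl : ∀ e ∈ es, okL W e = true) (P X : ℕ) :
    fld W (runN (rep W N) es P X) i =
      runS es (fun k => P.testBit (W * i + k)) (fld W X i) := by
  induction es generalizing P X with
  | nil => rfl
  | cons e es ih =>
    rw [runN_cons, ih (fun e' he' => hl e' (List.mem_cons_of_mem _ he')),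
      fld_exC hW P hi (hl e List.mem_cons_self)]
    have h1 : (fun k => (Nat.shiftRight P 1).testBit (W * i + k)) =
        fun k => P.testBit (W * i + (k + 1)) := by
      funext k
      have e2 : Nat.shiftRight P 1 = P >>> 1 := rfl
      rw [e2, Nat.testBit_shiftRight]
      congr 1
      omega
    rw [h1]
    rfl

/-! ## packed lists -/

/-- packed list -/
def packL (W : ℕ) (l : List ℕ) : ℕ :=
  List.rec (motive := fun _ => ℕ) 0 (fun a _ ih => Nat.add (Nat.shiftLeft ih W) a) l

theorem fld_packL {W : ℕ} {l : List ℕ} (hl : ∀ a ∈ l, a < 2 ^ W) {i : ℕ} (hi : i < l.length) :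
    fld W (packL W l) i = l[i] := by
  induction l generalizing i with
  | nil => exact absurd hi (by simp)
  | cons a l ih =>
    have e : packL W (a :: l) = packL W l <<< W + a := rfl
    have ha := hl a List.mem_cons_self
    rw [e, Nat.shiftLeft_eq]
    cases i with
    | zero =>
      unfold fld
      rw [Nat.mul_zero, pow_zero, Nat.div_one, Nat.mul_comm, Nat.mul_add_mod,
        Nat.mod_eq_of_lt ha]
      rfl
    | succ i =>
      have h1 := ih (fun b hb => hl b (List.mem_cons_of_mem _ hb)) (i := i)
        (by simpa using hi)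
      unfold fld at h1 ⊢
      rw [Nat.mul_add, mul_one, Nat.add_comm (W * i), pow_add, ← Nat.div_div_eq_div_mul,
        Nat.mul_comm (packL W l), Nat.mul_add_div (Nat.two_pow_pos W), Nat.div_eq_of_lt ha,
        Nat.add_zero]
      exact h1

end Pool.Agent.Helper16.TY
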