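import Pool.Agent.Helper16.TY.RunBase
import Pool.Agent.Helper67.TY.NearI

/-!
MP_8ee768_co, project TH-Y': the class theorem from the ten run lists and the ten counts.

`Lists` collects the ten run lists (generated, `Pool.Agent.Gen.TY.CLS`), `Counts` the ten counts
(search). `rootOK_of_counts`: every odd family on `{0, .., 11}` with at most 60 members is a
relabelled class representative.
-/

set_option autoImplicit false
set_option maxRecDepth 100000

namespace Pool.Agent.Helper16.TY

open Finset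
open Pool.Agent.Helper89.CV (OddCover ofMask)
open Pool.Agent.Helper97.CV
open Pool.Agent.Helper79.CV
open Pool.Agent.Helper82.TY (below)
open Pool.Agent.Helper67.TY
open Pool.Agent.Helper69.TY (CountLe)

/-- the list of the class representatives -/
noncomputable def reps : List ℕ := (List.range Tab.nc).map Tab.rp

theorem countLe_of_countRun {T m : ℕ} {forb : List ℕ} {cap K : ℕ}
    (h : CountRun T m forb cap K) : CountLe (Sol T m forb cap) K := by
  intro F hF
  refine h F fun e he => ?_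
  obtain ⟨h1, h2, h3, h4, h5, h6⟩ := hF e he
  exact ⟨h1, h2, h3, h4, h5, h6⟩

/-- **a run** -/
theorem runR_of_segT {T m : ℕ} {forb : List ℕ} {K : ℕ} (hT : T < 2 ^ 165)
    (h : SegT T m forb 0 (2 ^ 330) K) (hK : CountRun T m forb 6 K) :
    RunR T m forb 6 (fun D => ∃ σ : Equiv.Perm (Fin 13), σ 12 = 12 ∧
      ∃ r ∈ reps, mapF σ D = fam 12 4 r) := by
  intro D h1 h2 h3 h4 h5
  obtain ⟨σ, hσ, j, hj, h6⟩ := runR_of_seg hT h (countLe_of_countRun hK) D h1 h2 h3 h4 h5
  exact ⟨σ, hσ, Tab.rp j, List.mem_map.2 ⟨j, List.mem_range.2 hj, rfl⟩, h6⟩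

/-- the ten run lists -/
structure Lists : Prop where
  a0 : SegT repA 513 fA0 0 (2 ^ 330) 53213
  a1 : SegT repA 65 fA1 0 (2 ^ 330) 120817
  a2 : SegT repA 257 fA2 0 (2 ^ 330) 1845
  a3 : SegT repA 520 fA3 0 (2 ^ 330) 9812
  a4 : SegT repA 24 fA4 0 (2 ^ 330) 19519
  a5 : SegT repA 192 fA5 0 (2 ^ 330) 870
  b0 : SegT repB 520 fB0 0 (2 ^ 330) 57521
  b1 : SegT repB 9 fB1 0 (2 ^ 330) 118102
  b2 : SegT repB 24 fB2 0 (2 ^ 330) 20436
  b3 : SegT repB 3 fB3 0 (2 ^ 330) 44

/-- the ten counts -/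
structure Counts : Prop where
  a0 : CountRun repA 513 (prevs runsA6 0) 6 53213
  a1 : CountRun repA 65 (prevs runsA6 1) 6 120817
  a2 : CountRun repA 257 (prevs runsA6 2) 6 1845
  a3 : CountRun repA 520 (prevs runsA6 3) 6 9812
  a4 : CountRun repA 24 (prevs runsA6 4) 6 19519
  a5 : CountRun repA 192 (prevs runsA6 5) 6 870
  b0 : CountRun repB 520 (prevs runsB6 0) 6 57521
  b1 : CountRun repB 9 (prevs runsB6 1) 6 118102
  b2 : CountRun repB 24 (prevs runsB6 2) 6 20436
  b3 : CountRun repB 3 (prevs runsB6 3) 6 44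

/-- **the class theorem** -/
theorem rootOK_of_counts (hL : Lists) (hC : Counts) : RootOK 6 (fun _ => True) reps := by
  refine rootOK_of_runs nearOK ?_ ?_
  · intro r hr
    have h6 : r < 6 := hr
    interval_cases r
    · exact runR_of_segT repA_lt (by rw [fA0_eq]; exact hL.a0) hC.a0
    · exact runR_of_segT repA_lt (by rw [fA1_eq]; exact hL.a1) hC.a1
    · exact runR_of_segT repA_lt (by rw [fA2_eq]; exact hL.a2) hC.a2
    · exact runR_of_segT repA_lt (by rw [fA3_eq]; exact hL.a3) hC.a3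
    · exact runR_of_segT repA_lt (by rw [fA4_eq]; exact hL.a4) hC.a4
    · exact runR_of_segT repA_lt (by rw [fA5_eq]; exact hL.a5) hC.a5
  · intro r hr
    have h4 : r < 4 := hr
    interval_cases r
    · exact runR_of_segT repB_lt (by rw [fB0_eq]; exact hL.b0) hC.b0
    · exact runR_of_segT repB_lt (by rw [fB1_eq]; exact hL.b1) hC.b1
    · exact runR_of_segT repB_lt (by rw [fB2_eq]; exact hL.b2) hC.b2
    · exact runR_of_segT repB_lt (by rw [fB3_eq]; exact hL.b3) hC.b3

end Pool.Agent.Helper16.TY
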