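import Pool.Agent.Helper16.TY.Net

/-!
MP_8ee768_co, project TH-Y': the class check.

`net` is the odd-even transposition network on the points `0, .., 11` (66 conditional exchanges of
neighbouring points), acting on lanes with 512 bits: bits `0 .. 494` are the code `enc 12 4 D`,
bits `495 .. 506` a family of points (to follow the image of one point).

* `chk_sound`: `chk rp es cs js = true` gives for every entry `e` of `es` a permutation `σ` fixing
  `12` with `enc 12 4 (mapF σ (fam 12 4 e)) = rp j` for some `j` in `js`. The list `cs` holds the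
  certificates, 66 bits each.
* `chkT_sound`: the same with a point `y` moved to `11`, comparing only the link of `11`.
-/

set_option autoImplicit false
set_option maxRecDepth 100000

namespace Pool.Agent.Helper16.TY

open Finset
open Pool.Agent.Helper89.CV (OddCover ofMask)
open Pool.Agent.Helper97.CV
open Pool.Agent.Helper79.CV
open Pool.Agent.Helper33.CV
open Pool.Agent.Helper63.SIMD
open Pool.Agent.Helper91.TY

/-- code of a family of 4-subsets and a family of points -/
def code (D S : Finset (Finset (Fin 13))) : ℕ := 2 ^ 495 * enc 12 1 S + enc 12 4 D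

theorem testBit_code (D S : Finset (Finset (Fin 13))) (j : ℕ) :
    (code D S).testBit j =
      if j < 495 then (enc 12 4 D).testBit j else (enc 12 1 S).testBit (j - 495) := by
  unfold code
  have h : enc 12 4 D < 2 ^ 495 := enc_lt 12 4 D
  rw [Nat.testBit_two_pow_mul_add _ h]

theorem code_lt (D S : Finset (Finset (Fin 13))) : code D S < 2 ^ 507 := by
  have h1 : enc 12 4 D < 2 ^ 495 := enc_lt 12 4 D
  have h2 : enc 12 1 S < 2 ^ 12 := enc_lt 12 1 S
  unfold code
  have h3 : (2 : ℕ) ^ 507 = 2 ^ 495 * 2 ^ 12 := by rw [← pow_add]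
  rw [h3]
  calc 2 ^ 495 * enc 12 1 S + enc 12 4 D < 2 ^ 495 * enc 12 1 S + 2 ^ 495 := by omega
    _ = 2 ^ 495 * (enc 12 1 S + 1) := by ring
    _ ≤ 2 ^ 495 * 2 ^ 12 := Nat.mul_le_mul_left _ h2

theorem enc_empty (n k : ℕ) : enc n k ∅ = 0 := by
  refine Nat.eq_of_testBit_eq fun j => ?_
  rw [Nat.zero_testBit]
  by_cases h : j < (L n k).length
  · rw [testBit_enc _ h, decide_eq_false_iff_not]
    exact notMem_empty _
  · exact testBit_enc_ge _ (by omega)

theorem code_empty (D : Finset (Finset (Fin 13))) : code D ∅ = enc 12 4 D := by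
  unfold code
  rw [enc_empty, Nat.mul_zero, Nat.zero_add]

theorem mapF_empty (σ : Equiv.Perm (Fin 13)) : mapF σ ∅ = ∅ := rfl

/-! ## one move -/

/-- bit `j` after an exchange is this bit before -/
def idx1 (p : ℕ × ℕ) (j : ℕ) : ℕ :=
  bif Nat.testBit p.2 j then Nat.add j p.1 else
    bif Nat.ble p.1 j && Nat.testBit p.2 (Nat.sub j p.1) then Nat.sub j p.1 else j

/-- bit `j` after a list of exchanges is this bit before -/
def idx : List (ℕ × ℕ) → ℕ → ℕ
  | [], j => j
  | p :: l, j => idx1 p (idx l j)

/-- the masks are disjoint from their images and everything stays below bit `n` -/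
def okM (n : ℕ) : List (ℕ × ℕ) → Bool
  | [] => true
  | p :: l => Nat.blt (Nat.shiftLeft p.2 p.1) (2 ^ n) &&
      (Nat.beq (Nat.land p.2 (Nat.shiftLeft p.2 p.1)) 0 && okM n l)

theorem testBit_exS {n : ℕ} {l : List (ℕ × ℕ)} (hl : okM n l = true) (x j : ℕ) :
    (exS l x).testBit j = x.testBit (idx l j) := by
  induction l generalizing x with
  | nil => rfl
  | cons p l ih =>
    have h1 : (Nat.blt (Nat.shiftLeft p.2 p.1) (2 ^ n) &&
      (Nat.beq (Nat.land p.2 (Nat.shiftLeft p.2 p.1)) 0 && okM n l)) = true := hl
    rw [Bool.and_eq_true, Bool.and_eq_true, Nat.beq_eq] at h1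
    have hd : ∀ j, p.2.testBit j = true → p.2.testBit (j + p.1) = false := by
      intro j hj
      have h2 := congrArg (fun v => Nat.testBit v (j + p.1)) h1.2.1
      have e : Nat.land p.2 (Nat.shiftLeft p.2 p.1) = p.2 &&& (p.2 <<< p.1) := rfl
      simp only [e, Nat.testBit_and, Nat.zero_testBit, Nat.testBit_shiftLeft] at h2
      simpa [hj] using h2
    show (exS l (dswap p.1 p.2 x)).testBit j = x.testBit (idx1 p (idx l j))
    rw [ih h1.2.2, testBit_dswap hd]
    set i := idx l j
    unfold idx1
    by_cases h2 : p.2.testBit i = true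
    · rw [if_pos h2, h2, cond_true]
      rfl
    · rw [if_neg h2]
      rw [Bool.not_eq_true] at h2
      rw [h2, cond_false]
      by_cases h3 : p.1 ≤ i ∧ p.2.testBit (i - p.1) = true
      · rw [if_pos h3]
        have h4 : (Nat.ble p.1 i && Nat.testBit p.2 (Nat.sub i p.1)) = true := by
          rw [Bool.and_eq_true, Nat.ble_eq]
          exact h3
        rw [h4, cond_true]
        rfl
      · rw [if_neg h3]
        have h4 : (Nat.ble p.1 i && Nat.testBit p.2 (Nat.sub i p.1)) = false := by
          rw [Bool.eq_false_iff, Ne, Bool.and_eq_true, Nat.ble_eq]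
          exact h3
        rw [h4, cond_false]

theorem okL_of_okM {n m : ℕ} (hnm : n ≤ m) {l : List (ℕ × ℕ)} (hl : okM n l = true) :
    okL m l = true := by
  induction l with
  | nil => rfl
  | cons p l ih =>
    have h1 : (Nat.blt (Nat.shiftLeft p.2 p.1) (2 ^ n) &&
      (Nat.beq (Nat.land p.2 (Nat.shiftLeft p.2 p.1)) 0 && okM n l)) = true := hl
    rw [Bool.and_eq_true, Bool.and_eq_true, Nat.blt_eq] at h1
    show (Nat.blt (Nat.shiftLeft p.2 p.1) (2 ^ m) && okL m l) = true
    rw [Bool.and_eq_true, Nat.blt_eq]
    exact ⟨lt_of_lt_of_le h1.1 (Nat.pow_le_pow_right (by norm_num) hnm), ih h1.2.2⟩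

theorem exS_lt {n : ℕ} {l : List (ℕ × ℕ)} (hl : okM n l = true) {x : ℕ} (hx : x < 2 ^ n) :
    exS l x < 2 ^ n := by
  induction l generalizing x with
  | nil => exact hx
  | cons p l ih =>
    have h1 : (Nat.blt (Nat.shiftLeft p.2 p.1) (2 ^ n) &&
      (Nat.beq (Nat.land p.2 (Nat.shiftLeft p.2 p.1)) 0 && okM n l)) = true := hl
    rw [Bool.and_eq_true, Bool.and_eq_true, Nat.blt_eq] at h1
    have h2 : p.2 <<< p.1 < 2 ^ n := h1.1
    refine ih h1.2.2 ?_
    refine Nat.lt_pow_two_of_testBit _ fun j hj => ?_
    have hM : ∀ k, n ≤ k + p.1 → p.2.testBit k = false := by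
      intro k hk
      have h3 : (p.2 <<< p.1).testBit (k + p.1) = false :=
        Nat.testBit_lt_two_pow (lt_of_lt_of_le h2 (Nat.pow_le_pow_right (by norm_num) hk))
      rw [Nat.testBit_shiftLeft, Nat.add_sub_cancel] at h3
      simpa using h3
    rw [testBit_dswap_raw, Nat.testBit_lt_two_pow (lt_of_lt_of_le hx
      (Nat.pow_le_pow_right (by norm_num) hj)), hM j (by omega), Bool.and_false,
      Bool.xor_false, Bool.false_xor]
    by_cases h : p.1 ≤ j
    · rw [hM (j - p.1) (by omega), Bool.and_false, Bool.and_false]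
    · rw [decide_eq_false h, Bool.false_and]

/-- the indices from `j` on are the list -/
def okIdx (e : List (ℕ × ℕ)) : ℕ → List ℕ → Bool
  | _, [] => true
  | j, p :: P => Nat.beq (idx e j) p && okIdx e (Nat.succ j) P

theorem okIdx_get {e : List (ℕ × ℕ)} {j : ℕ} {P : List ℕ} (h : okIdx e j P = true) {i p : ℕ}
    (hp : P[i]? = some p) : idx e (j + i) = p := by
  induction P generalizing j i with
  | nil => exact absurd hp (by simp)
  | cons q P ih =>
    have h1 : (Nat.beq (idx e j) q && okIdx e (Nat.succ j) P) = true := h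
    rw [Bool.and_eq_true, Nat.beq_eq] at h1
    cases i with
    | zero =>
      rw [List.getElem?_cons_zero, Option.some.injEq] at hp
      rw [Nat.add_zero, h1.1, hp]
    | succ i =>
      rw [List.getElem?_cons_succ] at hp
      have h2 := ih h1.2 hp
      rw [← h2]
      congr 1
      omega

/-- the exchanges `e` are the relabelling by the permutation with inverse `l` -/
def okMove (e : List (ℕ × ℕ)) (l : List ℕ) : Bool :=
  okM 507 e && (okIdx e 0 (PL 12 4 l) && okIdx e 495 ((PL 12 1 l).map (fun p => Nat.add 495 p)))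

/-- the exchanges are a relabelling -/
def IsMove (e : List (ℕ × ℕ)) (τ : Equiv.Perm (Fin 13)) : Prop :=
  τ 12 = 12 ∧ okL 512 e = true ∧ ∀ D S, exS e (code D S) = code (mapF τ D) (mapF τ S)

theorem getElem?_PL_lt {n k i p : ℕ} (hn : n ≤ 13) {σ : Equiv.Perm (Fin 13)}
    (hσ : Keeps n σ) (h : (PL n k (valL σ))[i]? = some p) : p < n.choose k := by
  unfold PL at h
  have h1 := List.mem_of_getElem? h
  rw [List.mem_map] at h1
  obtain ⟨m, hm, rfl⟩ := h1
  exact rkM_lt (pmM_mem_L hn hσ hm)

theorem length_PL (n k : ℕ) (l : List ℕ) : (PL n k l).length = n.choose k := by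
  unfold PL
  rw [List.length_map, length_L]

theorem testBit_gather' {P : List ℕ} {N i p : ℕ} (h : P[i]? = some p) :
    (gather P N).testBit i = N.testBit p := by
  rw [Bool.eq_iff_iff, testBit_gather]
  constructor
  · rintro ⟨q, hq, h1⟩
    rw [h, Option.some.injEq] at hq
    rw [hq]
    exact h1
  · exact fun h1 => ⟨p, h, h1⟩

theorem isMove_of_ok {e : List (ℕ × ℕ)} {l : List ℕ} (h : okMove e l = true)
    {τ : Equiv.Perm (Fin 13)} (hτ : valL τ.symm = l) (h12 : τ 12 = 12) : IsMove e τ := by
  have hk : Keeps 12 τ := by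
    intro a ha
    have h1 : a ≠ 12 := fun h1 => by
      rw [h1] at ha
      exact absurd ha (by decide)
    have h2 : τ a ≠ 12 := fun h2 => h1 (τ.injective (h2.trans h12.symm))
    have h3 := (τ a).isLt
    have h4 : (τ a).val ≠ 12 := fun h4 => h2 (Fin.ext h4)
    omega
  unfold okMove at h
  rw [Bool.and_eq_true, Bool.and_eq_true] at h
  obtain ⟨h1, h2, h3⟩ := h
  refine ⟨h12, okL_of_okM (by norm_num) h1, fun D S => ?_⟩
  refine Nat.eq_of_testBit_eq fun j => ?_
  by_cases hj : j < 495
  · have e1 : (PL 12 4 l)[j]? = some ((PL 12 4 l)[j]'(by rw [length_PL]; exact hj)) :=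
      List.getElem?_eq_getElem _
    set p := (PL 12 4 l)[j]'(by rw [length_PL]; exact hj) with hp
    have h4 := okIdx_get h2 e1
    rw [Nat.zero_add] at h4
    have h5 : p < 495 := by
      rw [← hτ] at e1
      exact getElem?_PL_lt (by norm_num) hk.symm e1
    rw [testBit_exS h1, h4, testBit_code, if_pos h5, testBit_code, if_pos hj,
      enc_mapF_gather (by norm_num) hk, hτ, testBit_gather' e1]
  · by_cases hj2 : j < 507
    · obtain ⟨i, rfl⟩ : ∃ i, j = 495 + i := ⟨j - 495, by omega⟩
      have hi : i < (PL 12 1 l).length := by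
        rw [length_PL]
        show i < 12
        omega
      have e1 : (PL 12 1 l)[i]? = some ((PL 12 1 l)[i]) := List.getElem?_eq_getElem _
      set p := (PL 12 1 l)[i] with hp
      have e2 : ((PL 12 1 l).map (fun p => Nat.add 495 p))[i]? = some (495 + p) := by
        rw [List.getElem?_map, e1]
        rfl
      have h4 := okIdx_get h3 e2
      rw [testBit_exS h1, h4, testBit_code, if_neg (by omega), testBit_code,
        if_neg (by omega), enc_mapF_gather (by norm_num) hk, hτ, Nat.add_sub_cancel_left,
        Nat.add_sub_cancel_left, testBit_gather' e1]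
    · rw [Nat.testBit_lt_two_pow (lt_of_lt_of_le (exS_lt h1 (code_lt D S))
        (Nat.pow_le_pow_right (by norm_num) (by omega))),
        Nat.testBit_lt_two_pow (lt_of_lt_of_le (code_lt _ _)
        (Nat.pow_le_pow_right (by norm_num) (by omega)))]

/-! ## the exchanges of neighbouring points -/

/-- exchange of the points `0`, `1` -/
def e0 : List (ℕ × ℕ) :=
  [(1, 0x80404082112804082112808211281089411284a29004082112808211281089411284a29008211281089411284a2901089411284a29022509452094521488)]

/-- exchange of the points `1`, `2` -/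
def e1 : List (ℕ × ℕ) :=
  [(1, 0x10080810422440810422441042244211222244914480810422441042244211222244914481042244211222244914482112222449144844892289122892244)]

/-- exchange of the points `2`, `3` -/
def e2 : List (ℕ × ℕ) :=
  [(1, 0x20101020844001020844002084400422004401000041020844002084400422004401000042084400422004401000044220044010000488020000a00008022),
   (2, 0x1800000001800000180000c00180618000000001800000180000c00180618000000180000c0018061800000c00180618000300c3000c300c00)]

/-- exchange of the points `3`, `4` -/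
def e3 : List (ℕ × ℕ) :=
  [(1, 0x40202041080002041080004108000840008000000002041080004108000840008000000004108000840008000000008400080000000100000000000000001),
   (3, 0xe00000000e000000e00007000e0380380000000e000000e00007000e03803800000e00007000e0380380007000e03803801c070070700701c0)]

/-- exchange of the points `4`, `5` -/
def e4 : List (ℕ × ℕ) :=
  [(1, 0x80404082000004082000008200001000000000000004082000008200001000000000000008200001000000000000010000000000000000000000000000000),
   (4, 0xf00000000f000000f00007800f0000000000000f000000f00007800f00000000000f00007800f0000000007800f00000001e00000000000001e),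
   (6, 0xfc0000000000000000000000000000fc0000000000000000000fc000000000000fc0000001f8001f80000)]

/-- exchange of the points `5`, `6` -/
def e5 : List (ℕ × ℕ) :=
  [(1, 0x100808100000008100000010000000000000000000008100000010000000000000000000010000000000000000000000000000000000000000000000000000),
   (5, 0x1f00000001f000001f0000f80000000000000001f000001f0000f800000000000001f0000f8000000000000f80000000000000000000000000000),
   (10, 0x3ff0000000000000000000000000003ff0000000000000000003ff000000000003ff0000007fe00000007fe0)]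

/-- exchange of the points `6`, `7` -/
def e6 : List (ℕ × ℕ) :=
  [(1, 0x201010000000010000000000000000000000000000010000000000000000000000000000000000000000000000000000000000000000000000000000000000),
   (6, 0x7e00000007e000007e0000000000000000000007e000007e00000000000000000007e0000000000000000000000000000000000000000000000000),
   (15, 0x1fffc00000000000000000000000001fffc00000000000000001fffc0000000001fffc0000000000000000000000),
   (20, 0x7ffff8000)]

/-- exchange of the points `7`, `8` -/
def e7 : List (ℕ × ℕ) :=
  [(1, 0x402000000000000000000000000000000000000000000000000000000000000000000000000000000000000000000000000000000000000000000000000000),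
   (7, 0x3f80000003f80000000000000000000000000003f8000000000000000000000000000000000000000000000000000000000000000000000000000000),
   (21, 0x3ffffe0000000000000000000000003ffffe0000000000000003ffffe0000000000000000000000000000000000000000),
   (35, 0x3ffffffff800000000)]

/-- exchange of the points `8`, `9` -/
def e8 : List (ℕ × ℕ) :=
  [(8, 0x3fc00000000000000000000000000000000000000000000000000000000000000000000000000000000000000000000000000000000000000000000000),
   (28, 0x3ffffffc00000000000000000000003ffffffc000000000000000000000000000000000000000000000000000000000000000000),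
   (56, 0x3fffffffffffffc00000000000000000),
   (1, 0x800000000000000000000000000000000000000000000000000000000000000000000000000000000000000000000000000000000000000000000000000000)]

/-- exchange of the points `9`, `10` -/
def e9 : List (ℕ × ℕ) :=
  [(36, 0x3ffffffffc0000000000000000000000000000000000000000000000000000000000000000000000000000000000000000000000000000000),
   (84, 0x3ffffffffffffffffffffc0000000000000000000000000000000),
   (1, 0x1000000000000000000000000000000000000000000000000000000000000000000000000000000000000000000000000000000000000000000000000000000)]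

/-- exchange of the points `10`, `11` -/
def e10 : List (ℕ × ℕ) :=
  [(120, 0x3fffffffffffffffffffffffffffffc0000000000000000000000000000000000000000000000000000),
   (1, 0x2000000000000000000000000000000000000000000000000000000000000000000000000000000000000000000000000000000000000000000000000000000)]

theorem isMove_e0 : IsMove e0 (Equiv.swap 0 1) :=
  isMove_of_ok (l := [1, 0, 2, 3, 4, 5, 6, 7, 8, 9, 10, 11, 12]) (by decide +kernel) (by decide +kernel) (by decide +kernel)

theorem isMove_e1 : IsMove e1 (Equiv.swap 1 2) :=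
  isMove_of_ok (l := [0, 2, 1, 3, 4, 5, 6, 7, 8, 9, 10, 11, 12]) (by decide +kernel) (by decide +kernel) (by decide +kernel)

theorem isMove_e2 : IsMove e2 (Equiv.swap 2 3) :=
  isMove_of_ok (l := [0, 1, 3, 2, 4, 5, 6, 7, 8, 9, 10, 11, 12]) (by decide +kernel) (by decide +kernel) (by decide +kernel)

theorem isMove_e3 : IsMove e3 (Equiv.swap 3 4) :=
  isMove_of_ok (l := [0, 1, 2, 4, 3, 5, 6, 7, 8, 9, 10, 11, 12]) (by decide +kernel) (by decide +kernel) (by decide +kernel)

theorem isMove_e4 : IsMove e4 (Equiv.swap 4 5) :=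
  isMove_of_ok (l := [0, 1, 2, 3, 5, 4, 6, 7, 8, 9, 10, 11, 12]) (by decide +kernel) (by decide +kernel) (by decide +kernel)

theorem isMove_e5 : IsMove e5 (Equiv.swap 5 6) :=
  isMove_of_ok (l := [0, 1, 2, 3, 4, 6, 5, 7, 8, 9, 10, 11, 12]) (by decide +kernel) (by decide +kernel) (by decide +kernel)

theorem isMove_e6 : IsMove e6 (Equiv.swap 6 7) :=
  isMove_of_ok (l := [0, 1, 2, 3, 4, 5, 7, 6, 8, 9, 10, 11, 12]) (by decide +kernel) (by decide +kernel) (by decide +kernel)

theorem isMove_e7 : IsMove e7 (Equiv.swap 7 8) :=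
  isMove_of_ok (l := [0, 1, 2, 3, 4, 5, 6, 8, 7, 9, 10, 11, 12]) (by decide +kernel) (by decide +kernel) (by decide +kernel)

theorem isMove_e8 : IsMove e8 (Equiv.swap 8 9) :=
  isMove_of_ok (l := [0, 1, 2, 3, 4, 5, 6, 7, 9, 8, 10, 11, 12]) (by decide +kernel) (by decide +kernel) (by decide +kernel)

theorem isMove_e9 : IsMove e9 (Equiv.swap 9 10) :=
  isMove_of_ok (l := [0, 1, 2, 3, 4, 5, 6, 7, 8, 10, 9, 11, 12]) (by decide +kernel) (by decide +kernel) (by decide +kernel)

theorem isMove_e10 : IsMove e10 (Equiv.swap 10 11) :=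
  isMove_of_ok (l := [0, 1, 2, 3, 4, 5, 6, 7, 8, 9, 11, 10, 12]) (by decide +kernel) (by decide +kernel) (by decide +kernel)

/-- the odd-even transposition network -/
def net : List (List (ℕ × ℕ)) :=
  [e0, e2, e4, e6, e8, e10, e1, e3, e5, e7, e9,
   e0, e2, e4, e6, e8, e10, e1, e3, e5, e7, e9,
   e0, e2, e4, e6, e8, e10, e1, e3, e5, e7, e9,
   e0, e2, e4, e6, e8, e10, e1, e3, e5, e7, e9,
   e0, e2, e4, e6, e8, e10, e1, e3, e5, e7, e9,
   e0, e2, e4, e6, e8, e10, e1, e3, e5, e7, e9]

theorem isMove_net : ∀ e ∈ net, ∃ τ, IsMove e τ := by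
  intro e he
  unfold net at he
  simp only [List.mem_cons, List.not_mem_nil, or_false] at he
  have h := And.intro isMove_e0 (And.intro isMove_e1 (And.intro isMove_e2 (And.intro isMove_e3
    (And.intro isMove_e4 (And.intro isMove_e5 (And.intro isMove_e6 (And.intro isMove_e7
    (And.intro isMove_e8 (And.intro isMove_e9 isMove_e10)))))))))
  obtain ⟨h0, h1, h2, h3, h4, h5, h6, h7, h8, h9, h10⟩ := h
  casesm* _ ∨ _ <;> subst he <;> exact ⟨_, by assumption⟩

/-! ## the network -/

theorem runS_code {es : List (List (ℕ × ℕ))} (hes : ∀ e ∈ es, ∃ τ, IsMove e τ) (c : ℕ → Bool)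
    (D S : Finset (Finset (Fin 13))) : ∃ σ : Equiv.Perm (Fin 13), σ 12 = 12 ∧
      runS es c (code D S) = code (mapF σ D) (mapF σ S) := by
  induction es generalizing c D S with
  | nil => exact ⟨1, rfl, by rw [mapF_one, mapF_one]; rfl⟩
  | cons e es ih =>
    obtain ⟨τ, h1, -, h2⟩ := hes e List.mem_cons_self
    have hes' : ∀ e ∈ es, ∃ τ, IsMove e τ := fun e' he' => hes e' (List.mem_cons_of_mem _ he')
    have e1 : runS (e :: es) c (code D S) =
      runS es (fun k => c (k + 1)) (bif c 0 then exS e (code D S) else code D S) := rfl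
    rw [e1]
    by_cases hc : c 0 = true
    · rw [hc, cond_true, h2]
      obtain ⟨σ, h3, h4⟩ := ih hes' (fun k => c (k + 1)) (mapF τ D) (mapF τ S)
      refine ⟨σ * τ, ?_, ?_⟩
      · rw [Equiv.Perm.mul_apply, h1, h3]
      · rw [h4, mapF_mul, mapF_mul]
    · rw [Bool.not_eq_true] at hc
      rw [hc, cond_false]
      exact ih hes' _ D S

theorem okL_net : ∀ e ∈ net, okL 512 e = true := fun e he => by
  obtain ⟨τ, h⟩ := isMove_net e he
  exact h.2.1

/-- **the network on packed lanes** -/
theorem net_sound {N i P X : ℕ} (hi : i < N) {D S : Finset (Finset (Fin 13))}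
    (hX : fld 512 X i = code D S) : ∃ σ : Equiv.Perm (Fin 13), σ 12 = 12 ∧
      fld 512 (runN (rep 512 N) net P X) i = code (mapF σ D) (mapF σ S) := by
  rw [fld_runN (by norm_num) hi okL_net, hX]
  exact runS_code isMove_net _ D S

/-! ## classes of a list of entries -/

/-- all members are below `b` -/
def allLt (b : ℕ) : List ℕ → Bool
  | [] => true
  | a :: l => Nat.blt a b && allLt b l

theorem lt_of_allLt {b : ℕ} {l : List ℕ} (h : allLt b l = true) : ∀ a ∈ l, a < b := by
  induction l with
  | nil => exact fun a ha => absurd ha List.not_mem_nil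
  | cons c l ih =>
    have h1 : (Nat.blt c b && allLt b l) = true := h
    rw [Bool.and_eq_true, Nat.blt_eq] at h1
    intro a ha
    rcases List.mem_cons.1 ha with h2 | h2
    · rw [h2]
      exact h1.1
    · exact ih h1.2 a h2

/-- the check for `N` entries `es` with certificates `cs` (66 bits each) and classes `js` -/
def chk (N : ℕ) (rp : ℕ → ℕ) (es cs js : List ℕ) : Bool :=
  Nat.beq es.length N && (Nat.beq js.length N && (allLt (2 ^ 495) es &&
    Nat.beq (runN (rep 512 N) net (packL 512 cs) (packL 512 es)) (packL 512 (js.map rp))))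

/-- **soundness of the class check** -/
theorem chk_sound {N : ℕ} {rp : ℕ → ℕ} (hrp : ∀ j, rp j < 2 ^ 495) {es cs js : List ℕ}
    (h : chk N rp es cs js = true) : ∀ e ∈ es, ∃ σ : Equiv.Perm (Fin 13), σ 12 = 12 ∧
      ∃ j ∈ js, enc 12 4 (mapF σ (fam 12 4 e)) = rp j := by
  unfold chk at h
  rw [Bool.and_eq_true, Bool.and_eq_true, Bool.and_eq_true, Nat.beq_eq, Nat.beq_eq,
    Nat.beq_eq] at h
  obtain ⟨h1, h2, h3, h4⟩ := h
  have h5 := lt_of_allLt h3
  intro e he
  obtain ⟨i, hi, rfl⟩ := List.mem_iff_getElem.1 he
  have hlt : ∀ a ∈ es, a < 2 ^ 512 := fun a ha =>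
    lt_trans (h5 a ha) (Nat.pow_lt_pow_right (by norm_num) (by norm_num))
  have hX : fld 512 (packL 512 es) i = code (fam 12 4 es[i]) ∅ := by
    rw [fld_packL hlt hi, code_empty, enc_fam (by norm_num) (h5 _ he)]
  obtain ⟨σ, hσ, h6⟩ := net_sound (P := packL 512 cs) (N := N) (h1 ▸ hi) hX
  have hij : i < (js.map rp).length := by
    rw [List.length_map, h2, ← h1]
    exact hi
  have hlt2 : ∀ a ∈ js.map rp, a < 2 ^ 512 := by
    intro a ha
    rw [List.mem_map] at ha
    obtain ⟨j, -, rfl⟩ := ha
    exact lt_trans (hrp j) (Nat.pow_lt_pow_right (by norm_num) (by norm_num))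
  rw [h4, fld_packL hlt2 hij, mapF_empty, code_empty, List.getElem_map] at h6
  exact ⟨σ, hσ, js[i]'(by rw [List.length_map] at hij; exact hij), List.getElem_mem _, h6.symm⟩

end Pool.Agent.Helper16.TY
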