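import Pool.Agent.Helper16.TY.Tab.All
import Pool.Agent.Helper67.TY.Sols

/-!
MP_8ee768_co, project TH-Y': the ten run lists, common part of the generated modules.
-/

set_option autoImplicit false
set_option maxRecDepth 100000

namespace Pool.Agent.Helper16.TY

open Pool.Agent.Helper67.TY

/-- evaluation of the argument first -/
def forceL (n : ℕ) (f : ℕ → List ℕ) : List ℕ := Nat.rec (f 0) (fun k _ => f (Nat.succ k)) n

/-- the `n` fields with 84 bits of a number -/
def unpv (n : ℕ) : ℕ → List ℕ :=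
  Nat.rec (motive := fun _ => ℕ → List ℕ) (fun _ => [])
    (fun _ ih X => Nat.land X 0xfffffffffffffffffffff :: forceL (Nat.shiftRight X 84) ih) n

/-- the list of the certificates: fields of 84 bits, literals with 3990 bits -/
def cert (n : ℕ) (l : List ℕ) : List ℕ := forceL (packL 3990 l) (unpv n)

theorem Seg.app {nc : ℕ} {tv : ℕ → ℕ} {T m : ℕ} {forb : List ℕ} {cap a b c K K' : ℕ}
    (h : Seg nc tv T m forb cap a b K) (h' : Seg nc tv T m forb cap b c K') (hK : 0 < K)
    (hK' : 0 < K') : Seg nc tv T m forb cap a c (K + K') := by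
  have hab : a ≤ b := by
    obtain ⟨F, h1, h2⟩ := h
    obtain ⟨e, he⟩ := Finset.card_pos.1 (h1.symm ▸ hK)
    have := (h2 e he).1
    omega
  have hbc : b ≤ c := by
    obtain ⟨F, h1, h2⟩ := h'
    obtain ⟨e, he⟩ := Finset.card_pos.1 (h1.symm ▸ hK')
    have := (h2 e he).1
    omega
  exact h.append h' hab hbc

/-- several segments: bound, number, certificates -/
noncomputable def segsOK (T m : ℕ) (forb : List ℕ) : ℕ → List (ℕ × ℕ × List ℕ) → Bool
  | _, [] => true
  | lo, x :: l => segOK Tab.nc Tab.tv T m forb 6 lo x.1 x.2.1 x.2.2 && segsOK T m forb x.1 l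

/-- the last bound -/
def lastB : ℕ → List (ℕ × ℕ × List ℕ) → ℕ
  | lo, [] => lo
  | _, x :: l => lastB x.1 l

/-- the number of all entries -/
def totN : List (ℕ × ℕ × List ℕ) → ℕ
  | [] => 0
  | x :: l => x.2.1 + totN l

theorem segs_sound {T m : ℕ} {forb : List ℕ} (hT : T < 2 ^ 165) (hm : m < 2 ^ 12)
    (hforb : ∀ q ∈ forb, q < 2 ^ 12) {l : List (ℕ × ℕ × List ℕ)} {x : ℕ × ℕ × List ℕ} {lo : ℕ}
    (h : segsOK T m forb lo (x :: l) = true) :
    Seg Tab.nc Tab.tv T m forb 6 lo (lastB lo (x :: l)) (totN (x :: l)) ∧ 0 < totN (x :: l) := by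
  induction l generalizing x lo with
  | nil =>
    have e : (segOK Tab.nc Tab.tv T m forb 6 lo x.1 x.2.1 x.2.2 && segsOK T m forb x.1 []) = true := h
    rw [Bool.and_eq_true] at e
    have h1 := segOK_sound (fun j _ => Tab.tv_good j) hT hm hforb e.1
    have h2 := e.1
    unfold segOK at h2
    rw [Bool.and_eq_true, Nat.blt_eq] at h2
    exact ⟨h1, h2.1⟩
  | cons y l ih =>
    have e : (segOK Tab.nc Tab.tv T m forb 6 lo x.1 x.2.1 x.2.2 &&
      segsOK T m forb x.1 (y :: l)) = true := h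
    rw [Bool.and_eq_true] at e
    have h1 := segOK_sound (fun j _ => Tab.tv_good j) hT hm hforb e.1
    have h2 := e.1
    unfold segOK at h2
    rw [Bool.and_eq_true, Nat.blt_eq] at h2
    obtain ⟨h3, h4⟩ := ih e.2
    have h5 := h1.app h3 h2.1 h4
    exact ⟨h5, by
      show 0 < x.2.1 + totN (y :: l)
      omega⟩

/-- segments of the class table -/
abbrev SegT (T m : ℕ) (forb : List ℕ) (lo hi K : ℕ) : Prop :=
  Seg Tab.nc Tab.tv T m forb 6 lo hi K

/-- pairs forbidden in run A0 -/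
def fA0 : List ℕ := []

theorem fA0_eq : prevs runsA6 0 = fA0 := by decide +kernel

theorem segA0 {lo : ℕ} {x : ℕ × ℕ × List ℕ} {l : List (ℕ × ℕ × List ℕ)}
    (h : segsOK repA 513 fA0 lo (x :: l) = true) :
    SegT repA 513 fA0 lo (lastB lo (x :: l)) (totN (x :: l)) :=
  (segs_sound repA_lt (by norm_num) (by decide +kernel) h).1

/-- pairs forbidden in run A1 -/
def fA1 : List ℕ := [513, 514, 516, 1025, 1026, 1028]

theorem fA1_eq : prevs runsA6 1 = fA1 := by decide +kernel

theorem segA1 {lo : ℕ} {x : ℕ × ℕ × List ℕ} {l : List (ℕ × ℕ × List ℕ)}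
    (h : segsOK repA 65 fA1 lo (x :: l) = true) :
    SegT repA 65 fA1 lo (lastB lo (x :: l)) (totN (x :: l)) :=
  (segs_sound repA_lt (by norm_num) (by decide +kernel) h).1

/-- pairs forbidden in run A2 -/
def fA2 : List ℕ := [513, 514, 516, 1025, 1026, 1028, 65, 66, 129, 132, 258, 260]

theorem fA2_eq : prevs runsA6 2 = fA2 := by decide +kernel

theorem segA2 {lo : ℕ} {x : ℕ × ℕ × List ℕ} {l : List (ℕ × ℕ × List ℕ)}
    (h : segsOK repA 257 fA2 lo (x :: l) = true) :
    SegT repA 257 fA2 lo (lastB lo (x :: l)) (totN (x :: l)) :=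
  (segs_sound repA_lt (by norm_num) (by decide +kernel) h).1

/-- pairs forbidden in run A3 -/
def fA3 : List ℕ := [513, 514, 516, 1025, 1026, 1028, 65, 66, 129, 132, 258, 260, 68, 130, 257]

theorem fA3_eq : prevs runsA6 3 = fA3 := by decide +kernel

theorem segA3 {lo : ℕ} {x : ℕ × ℕ × List ℕ} {l : List (ℕ × ℕ × List ℕ)}
    (h : segsOK repA 520 fA3 lo (x :: l) = true) :
    SegT repA 520 fA3 lo (lastB lo (x :: l)) (totN (x :: l)) :=
  (segs_sound repA_lt (by norm_num) (by decide +kernel) h).1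

/-- pairs forbidden in run A4 -/
def fA4 : List ℕ := [513, 514, 516, 1025, 1026, 1028, 65, 66, 129, 132, 258, 260, 68, 130, 257, 520, 528, 544, 1032, 1040, 1056]

theorem fA4_eq : prevs runsA6 4 = fA4 := by decide +kernel

theorem segA4 {lo : ℕ} {x : ℕ × ℕ × List ℕ} {l : List (ℕ × ℕ × List ℕ)}
    (h : segsOK repA 24 fA4 lo (x :: l) = true) :
    SegT repA 24 fA4 lo (lastB lo (x :: l)) (totN (x :: l)) :=
  (segs_sound repA_lt (by norm_num) (by decide +kernel) h).1

/-- pairs forbidden in run A5 -/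
def fA5 : List ℕ := [513, 514, 516, 1025, 1026, 1028, 65, 66, 129, 132, 258, 260, 68, 130, 257, 520, 528, 544, 1032, 1040, 1056, 24, 40, 48]

theorem fA5_eq : prevs runsA6 5 = fA5 := by decide +kernel

theorem segA5 {lo : ℕ} {x : ℕ × ℕ × List ℕ} {l : List (ℕ × ℕ × List ℕ)}
    (h : segsOK repA 192 fA5 lo (x :: l) = true) :
    SegT repA 192 fA5 lo (lastB lo (x :: l)) (totN (x :: l)) :=
  (segs_sound repA_lt (by norm_num) (by decide +kernel) h).1

/-- pairs forbidden in run B0 -/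
def fB0 : List ℕ := []

theorem fB0_eq : prevs runsB6 0 = fB0 := by decide +kernel

theorem segB0 {lo : ℕ} {x : ℕ × ℕ × List ℕ} {l : List (ℕ × ℕ × List ℕ)}
    (h : segsOK repB 520 fB0 lo (x :: l) = true) :
    SegT repB 520 fB0 lo (lastB lo (x :: l)) (totN (x :: l)) :=
  (segs_sound repB_lt (by norm_num) (by decide +kernel) h).1

/-- pairs forbidden in run B1 -/
def fB1 : List ℕ := [520, 528, 544, 576, 640, 768, 1032, 1040, 1056, 1088, 1152, 1280]

theorem fB1_eq : prevs runsB6 1 = fB1 := by decide +kernel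

theorem segB1 {lo : ℕ} {x : ℕ × ℕ × List ℕ} {l : List (ℕ × ℕ × List ℕ)}
    (h : segsOK repB 9 fB1 lo (x :: l) = true) :
    SegT repB 9 fB1 lo (lastB lo (x :: l)) (totN (x :: l)) :=
  (segs_sound repB_lt (by norm_num) (by decide +kernel) h).1

/-- pairs forbidden in run B2 -/
def fB2 : List ℕ := [520, 528, 544, 576, 640, 768, 1032, 1040, 1056, 1088, 1152, 1280, 9, 10, 18, 20, 33, 36, 66, 68, 129, 132, 257, 258]

theorem fB2_eq : prevs runsB6 2 = fB2 := by decide +kernel

theorem segB2 {lo : ℕ} {x : ℕ × ℕ × List ℕ} {l : List (ℕ × ℕ × List ℕ)}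
    (h : segsOK repB 24 fB2 lo (x :: l) = true) :
    SegT repB 24 fB2 lo (lastB lo (x :: l)) (totN (x :: l)) :=
  (segs_sound repB_lt (by norm_num) (by decide +kernel) h).1

/-- pairs forbidden in run B3 -/
def fB3 : List ℕ := [520, 528, 544, 576, 640, 768, 1032, 1040, 1056, 1088, 1152, 1280, 9, 10, 18, 20, 33, 36, 66, 68, 129, 132, 257, 258, 24, 40, 48, 192, 320, 384]

theorem fB3_eq : prevs runsB6 3 = fB3 := by decide +kernel

theorem segB3 {lo : ℕ} {x : ℕ × ℕ × List ℕ} {l : List (ℕ × ℕ × List ℕ)}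
    (h : segsOK repB 3 fB3 lo (x :: l) = true) :
    SegT repB 3 fB3 lo (lastB lo (x :: l)) (totN (x :: l)) :=
  (segs_sound repB_lt (by norm_num) (by decide +kernel) h).1

end Pool.Agent.Helper16.TY
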