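import Pool.Agent.Helper16.TY.Rows
import Pool.Agent.Helper67.TY.Root

/-!
MP_8ee768_co, project TH-Y': lists of light links computed from the class representatives.

* `zs D` = the points `< 12` with 19 members of `D` through them (as a family of singletons). A table
  value is `code D (zs D)`, see `Good`; `goodX` checks all lanes of a packed list.
* `ents` computes a packed list of entries from the certificates `v = j * 2 ^ 66 + w` (class `j`,
  word `w` of the network).
* `Sol T m forb cap` = the numbers `e < 2 ^ 330` such that `fam 12 4 (e + 2 ^ 330 * T)` is an odd family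
  with the conditions of `RunR`. `Seg .. lo hi K`: there are `K` members of `Sol` in `[lo, hi)` whose
  families are relabelled class representatives.
* `runR_of_seg`: `Seg .. 0 (2 ^ 330) K` and `CountLe (Sol ..) K` give `RunR`.
-/

set_option autoImplicit false
set_option maxRecDepth 100000

namespace Pool.Agent.Helper16.TY

open Finset
open Pool.Agent.Helper89.CV (OddCover ofMask)
open Pool.Agent.Helper97.CV
open Pool.Agent.Helper79.CV
open Pool.Agent.Helper63.SIMD
open Pool.Agent.Helper91.TY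
open Pool.Agent.Helper82.TY (below)
open Pool.Agent.Helper69.TY (parX parX_sound psum psum_eq pcb pcb_le incr incr_sound strict_lt CountLe)
open Pool.Agent.Helper67.TY (ZD RunR)

/-! ## zero points -/

/-- the points `< 12` with 19 members through them, as singletons -/
def zs (D : Finset (Finset (Fin 13))) : Finset (Finset (Fin 13)) :=
  ((below 12).filter fun a => (link D a).card = 19).image fun a => {a}

theorem mem_below' {n : ℕ} {a : Fin 13} : a ∈ below n ↔ a.val < n :=
  Pool.Agent.Helper79.CV.mem_below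

theorem singleton_mem_zs {D : Finset (Finset (Fin 13))} {a : Fin 13} :
    {a} ∈ zs D ↔ a.val < 12 ∧ (link D a).card = 19 := by
  unfold zs
  rw [mem_image]
  constructor
  · rintro ⟨b, hb, h⟩
    rw [singleton_inj] at h
    rw [mem_filter, mem_below', h] at hb
    exact hb
  · intro h
    exact ⟨a, mem_filter.2 ⟨mem_below'.2 h.1, h.2⟩, rfl⟩

theorem card_link_mapF (σ : Equiv.Perm (Fin 13)) (D : Finset (Finset (Fin 13))) (a : Fin 13) :
    (link (mapF σ D) (σ a)).card = (link D a).card := by
  rw [link_mapF, card_mapF]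

theorem lt_twelve_of_fix {σ : Equiv.Perm (Fin 13)} (hσ : σ 12 = 12) {a : Fin 13} :
    (σ a).val < 12 ↔ a.val < 12 := by
  have h : ∀ b : Fin 13, b.val < 12 ↔ b ≠ 12 := by decide
  rw [h, h]
  constructor
  · intro h1 h2
    exact h1 (by rw [h2, hσ])
  · intro h1 h2
    exact h1 (σ.injective (h2.trans hσ.symm))

theorem zs_mapF {σ : Equiv.Perm (Fin 13)} (hσ : σ 12 = 12) (D : Finset (Finset (Fin 13))) :
    mapF σ (zs D) = zs (mapF σ D) := by
  ext s
  rw [mem_mapF']
  by_cases hs : ∃ a, s = {a}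
  · obtain ⟨a, rfl⟩ := hs
    rw [mapS_singleton, singleton_mem_zs, singleton_mem_zs]
    have h1 := card_link_mapF σ D (σ.symm a)
    rw [Equiv.apply_symm_apply] at h1
    rw [h1]
    have h2 := lt_twelve_of_fix hσ (a := σ.symm a)
    rw [Equiv.apply_symm_apply] at h2
    rw [h2]
  · have h1 : s ∉ zs (mapF σ D) := by
      intro h
      unfold zs at h
      rw [mem_image] at h
      obtain ⟨b, -, h⟩ := h
      exact hs ⟨b, h.symm⟩
    have h2 : mapS σ.symm s ∉ zs D := by
      intro h
      unfold zs at h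
      rw [mem_image] at h
      obtain ⟨b, -, h⟩ := h
      refine hs ⟨σ b, ?_⟩
      rw [← mapS_mapS_symm σ s, ← h, mapS_singleton]
    exact iff_of_false h2 h1

theorem getElem_L_one : ∀ i, ∀ h : i < 12, (L 12 1)[i]'(by rw [length_L]; exact h) = 2 ^ i := by
  have h : ∀ i : Fin 12, (L 12 1)[i.val]'(by rw [length_L]; exact i.isLt) = 2 ^ i.val := by
    decide +kernel
  exact fun i hi => h ⟨i, hi⟩

/-- bits of the code of the zero points -/
theorem testBit_zs (D : Finset (Finset (Fin 13))) {i : ℕ} (hi : i < 12) :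
    (enc 12 1 (zs D)).testBit i = decide ((link D ⟨i, by omega⟩).card = 19) := by
  rw [testBit_enc _ (by rw [length_L]; exact hi), getElem_L_one i hi, ofMask_two_pow (by omega),
    decide_eq_decide, singleton_mem_zs]
  exact ⟨fun h => h.2, fun h => ⟨hi, h⟩⟩

theorem testBit_code_zs (D : Finset (Finset (Fin 13))) {i : ℕ} (hi : i < 12) :
    (code D (zs D)).testBit (495 + i) = decide ((link D ⟨i, by omega⟩).card = 19) := by
  rw [testBit_code, if_neg (by omega), Nat.add_sub_cancel_left, testBit_zs D hi]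

theorem zd_iff {D : Finset (Finset (Fin 13))} {m : ℕ} (hm : m < 2 ^ 12) :
    ZD D m ↔ ∀ i, m.testBit i = true → (code D (zs D)).testBit (495 + i) = true := by
  unfold ZD
  constructor
  · intro h i hi
    have h12 : i < 12 := by
      by_contra h1
      rw [Nat.testBit_lt_two_pow (lt_of_lt_of_le hm (Nat.pow_le_pow_right (by norm_num)
        (by omega)))] at hi
      exact Bool.false_ne_true hi
    rw [testBit_code_zs D h12, decide_eq_true_eq]
    exact h ⟨i, by omega⟩ (mem_ofMask.2 hi)
  · intro h a ha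
    rw [mem_ofMask] at ha
    have h12 : a.val < 12 := by
      by_contra h1
      rw [Nat.testBit_lt_two_pow (lt_of_lt_of_le hm (Nat.pow_le_pow_right (by norm_num)
        (by omega)))] at ha
      exact Bool.false_ne_true ha
    have h1 := h a.val ha
    rw [testBit_code_zs D h12, decide_eq_true_eq] at h1
    exact h1

/-! ## table values -/

/-- a table value: an odd family on `{0, .., 11}` with at most `57 + cap / 2` members, and its zero
points -/
def Good (cap v : ℕ) : Prop := ∃ D : Finset (Finset (Fin 13)), OddFam 3 (below 12) D ∧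
  2 * D.card ≤ 114 + cap ∧ v = code D (zs D)

theorem code_mod (D S : Finset (Finset (Fin 13))) : code D S % 2 ^ 495 = enc 12 4 D := by
  have h : enc 12 4 D < 2 ^ 495 := enc_lt 12 4 D
  unfold code
  rw [Nat.mul_add_mod, Nat.mod_eq_of_lt h]

/-- the zero bit `a` is right on all lanes -/
def zOK (X R a : ℕ) (row : List ℕ) : Bool :=
  Nat.beq (Nat.add (Nat.land (Nat.shiftRight (Nat.add (Nat.xor (psL X R row) (Nat.mul 19 R))
    (Nat.mul 63 R)) 6) R) (Nat.land (Nat.shiftRight X (Nat.add 495 a)) R)) R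

/-- the zero bits from `a` on are right on all lanes -/
def zsOK (X R : ℕ) : ℕ → List (List ℕ) → Bool
  | _, [] => true
  | a, row :: rows => zOK X R a row && zsOK X R (Nat.succ a) rows

theorem test_six : ∀ t : ℕ, t < 64 → (t + 63).testBit 6 = decide (t ≠ 0) := by
  decide

theorem zOK_sound {N X a i : ℕ} (hi : i < N) (ha : a < 12) {row : List ℕ}
    (hrow : ∀ q ∈ row, q < 495) (hb : ∀ i < N, pcL (fld 512 X i) row < 64)
    (h : zOK X (rep 512 N) a row = true) :
    (fld 512 X i).testBit (495 + a) = decide (pcL (fld 512 X i) row = 19) := by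
  unfold zOK at h
  rw [Nat.beq_eq] at h
  have hR : rep 512 N = pk 512 N (fun _ => 1) := rep_eq (by norm_num)
  have e1 : Nat.mul 19 (rep 512 N) = pk 512 N (fun _ => 19) := mul_rep (by norm_num) 19
  have e2 : Nat.mul 63 (rep 512 N) = pk 512 N (fun _ => 63) := mul_rep (by norm_num) 63
  have hbig : (64 : ℕ) < 2 ^ 512 := by
    calc (64 : ℕ) < 2 ^ 7 := by norm_num
      _ ≤ 2 ^ 512 := Nat.pow_le_pow_right (by norm_num) (by norm_num)
  rw [psL_eq (by norm_num) (fun q hq => by have := hrow q hq; omega), e1, e2] at h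
  have e3 : Nat.xor (pk 512 N fun i => pcL (fld 512 X i) row) (pk 512 N fun _ => 19) =
      pk 512 N (fun i => pcL (fld 512 X i) row ^^^ 19) :=
    pk_xor (fun i hi => by have := hb i hi; omega) (fun _ _ => by
      show (19 : ℕ) < 2 ^ 512
      omega)
  rw [e3] at h
  have e4 : Nat.add (pk 512 N fun i => pcL (fld 512 X i) row ^^^ 19) (pk 512 N fun _ => 63) =
      pk 512 N (fun i => (pcL (fld 512 X i) row ^^^ 19) + 63) := pk_add
  rw [e4] at h
  have hx : ∀ i < N, pcL (fld 512 X i) row ^^^ 19 < 64 := fun i hi =>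
    Nat.xor_lt_two_pow (n := 6) (hb i hi) (by norm_num)
  have hlt : ∀ i < N, (pcL (fld 512 X i) row ^^^ 19) + 63 < 2 ^ 512 := by
    intro i hi
    have h1 := hx i hi
    have h2 : (128 : ℕ) ≤ 2 ^ 512 := by
      calc (128 : ℕ) = 2 ^ 7 := by norm_num
        _ ≤ 2 ^ 512 := Nat.pow_le_pow_right (by norm_num) (by norm_num)
    omega
  have e5 : Nat.land (Nat.shiftRight (pk 512 N fun i => (pcL (fld 512 X i) row ^^^ 19) + 63) 6)
      (rep 512 N) = pk 512 N (fun i => (((pcL (fld 512 X i) row ^^^ 19) + 63).testBit 6).toNat) := by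
    have h1 := Pool.Agent.Helper69.TY.land_rep (W := 512) (N := N)
      (X := pk 512 N fun i => (pcL (fld 512 X i) row ^^^ 19) + 63) (by norm_num)
      (q := 6) (by norm_num)
    refine h1.trans (pk_congr fun i hi => ?_)
    rw [fld_pk hlt hi]
  have e6 : Nat.land (Nat.shiftRight X (Nat.add 495 a)) (rep 512 N) =
      pk 512 N (fun i => ((fld 512 X i).testBit (495 + a)).toNat) :=
    Pool.Agent.Helper69.TY.land_rep (by norm_num) (by show 495 + a < 512; omega)
  rw [e5, e6] at h
  have e7 : Nat.add (pk 512 N fun i => (((pcL (fld 512 X i) row ^^^ 19) + 63).testBit 6).toNat)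
      (pk 512 N fun i => ((fld 512 X i).testBit (495 + a)).toNat) =
      pk 512 N (fun i => (((pcL (fld 512 X i) row ^^^ 19) + 63).testBit 6).toNat +
        ((fld 512 X i).testBit (495 + a)).toNat) := pk_add
  rw [e7, hR] at h
  have h2 := (pk_inj (fun i _ => by
    have h3 := Bool.toNat_le (((pcL (fld 512 X i) row ^^^ 19) + 63).testBit 6)
    have h4 := Bool.toNat_le ((fld 512 X i).testBit (495 + a))
    omega) (fun _ _ => by
      show (1 : ℕ) < 2 ^ 512
      omega)).1 h i hi
  have h3 := test_six _ (hx i hi)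
  rw [h3] at h2
  by_cases h4 : pcL (fld 512 X i) row = 19
  · rw [h4] at h2
    rw [h4]
    have h5 : (19 : ℕ) ^^^ 19 = 0 := Nat.xor_self 19
    rw [h5] at h2
    cases h6 : (fld 512 X i).testBit (495 + a)
    · rw [h6] at h2
      exact absurd h2 (by decide)
    · rfl
  · have h5 : pcL (fld 512 X i) row ^^^ 19 ≠ 0 := by
      intro h6
      exact h4 (Nat.xor_eq_zero_iff.1 h6)
    rw [decide_eq_true h5] at h2
    rw [decide_eq_false h4]
    cases h6 : (fld 512 X i).testBit (495 + a)
    · rfl
    · rw [h6] at h2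
      exact absurd h2 (by decide)

theorem zsOK_sound {N X i : ℕ} (hi : i < N) : ∀ (rows : List (List ℕ)) (a : ℕ),
    a + rows.length ≤ 12 → (∀ row ∈ rows, ∀ q ∈ row, q < 495) →
    (∀ row ∈ rows, ∀ i < N, pcL (fld 512 X i) row < 64) → zsOK X (rep 512 N) a rows = true →
    ∀ b, ∀ h : b < rows.length, (fld 512 X i).testBit (495 + (a + b)) =
      decide (pcL (fld 512 X i) rows[b] = 19) := by
  intro rows
  induction rows with
  | nil => intro a _ _ _ _ b h; exact absurd h (by simp)
  | cons row rows ih =>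
    intro a ha hq hb h b hlt
    have h1 : (zOK X (rep 512 N) a row && zsOK X (rep 512 N) (Nat.succ a) rows) = true := h
    rw [Bool.and_eq_true] at h1
    rw [List.length_cons] at ha
    cases b with
    | zero =>
      exact zOK_sound hi (by omega) (hq row List.mem_cons_self) (hb row List.mem_cons_self) h1.1
    | succ b =>
      have h2 := ih (a + 1) (by omega) (fun r hr => hq r (List.mem_cons_of_mem _ hr))
        (fun r hr => hb r (List.mem_cons_of_mem _ hr)) h1.2 b (by simpa using hlt)
      have e1 : a + 1 + b = a + (b + 1) := by omega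
      rw [e1] at h2
      exact h2

/-- all lanes are table values with at most `c` members -/
def goodX (N c X : ℕ) : Bool :=
  Pool.Agent.Helper69.TY.force (rep 512 N) fun R =>
    Nat.beq (Nat.land X (Nat.mul (2 ^ 507 - 1) R)) X &&
      (parX 0 X R 0 abv12 && (Nat.beq (geT 512 N (c + 1) (psum X R 495)) 0 &&
        zsOK X R 0 star12))

theorem pcL_congr {e e' : ℕ} {l : List ℕ} (h : ∀ q ∈ l, e.testBit q = e'.testBit q) :
    pcL e l = pcL e' l := by
  induction l with
  | nil => rfl
  | cons q l ih =>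
    show pcL e l + (e.testBit q).toNat = pcL e' l + (e'.testBit q).toNat
    rw [h q List.mem_cons_self, ih (fun q hq => h q (List.mem_cons_of_mem _ hq))]

theorem pcb_congr {e e' : ℕ} {n : ℕ} (h : ∀ q < n, e.testBit q = e'.testBit q) :
    pcb e n = pcb e' n := by
  induction n with
  | zero => rfl
  | succ n ih =>
    show pcb e n + (e.testBit n).toNat = pcb e' n + (e'.testBit n).toNat
    rw [h n (by omega), ih (fun q hq => h q (by omega))]

theorem lt_of_land_rep {N w X i : ℕ} (hw : w ≤ 512)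
    (h : X &&& (2 ^ w - 1) * rep 512 N = X) : fld 512 X i < 2 ^ w := by
  have hM : (2 ^ w - 1 : ℕ) < 2 ^ 512 :=
    lt_of_lt_of_le (Nat.sub_lt (Nat.two_pow_pos w) Nat.one_pos)
      (Nat.pow_le_pow_right (by norm_num) hw)
  refine Nat.lt_pow_two_of_testBit _ fun j hj => ?_
  by_contra hc
  rw [Bool.not_eq_false, testBit_fld, Bool.and_eq_true, decide_eq_true_eq] at hc
  obtain ⟨h1, h2⟩ := hc
  rw [← h, Nat.testBit_and, testBit_mul_rep (by norm_num) hM, Bool.and_eq_true,
    Bool.and_eq_true] at h2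
  have h3 := h2.2.2
  rw [Nat.mul_add_mod, Nat.mod_eq_of_lt h1, Nat.testBit_two_pow_sub_one, decide_eq_true_eq] at h3
  omega

theorem abv12_lt : ∀ l ∈ abv12, ∀ q ∈ l, q < 495 := by decide +kernel

theorem star12_lt : ∀ l ∈ star12, ∀ q ∈ l, q < 495 := by decide +kernel

theorem length_star12 : star12.length = 12 := by decide +kernel

theorem card_link_le (D : Finset (Finset (Fin 13))) (a : Fin 13) : (link D a).card ≤ D.card := by
  rw [card_link]
  unfold cnt
  exact card_filter_le _ _

/-- **the check of the table values** -/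
theorem goodX_sound {N c cap X : ℕ} (hc : c < 64) (hcap : 2 * c ≤ 114 + cap)
    (h : goodX N c X = true) {i : ℕ} (hi : i < N) : Good cap (fld 512 X i) := by
  unfold goodX at h
  rw [Pool.Agent.Helper69.TY.force_eq, Bool.and_eq_true, Bool.and_eq_true, Bool.and_eq_true,
    Nat.beq_eq, Nat.beq_eq] at h
  obtain ⟨h1, h2, h3, h4⟩ := h
  have h1' : X &&& (2 ^ 507 - 1) * rep 512 N = X := h1
  have hlt : ∀ i, fld 512 X i < 2 ^ 507 := fun i => lt_of_land_rep (by norm_num) h1'
  have hcard : ∀ i < N, pcb (fld 512 X i) 495 < c + 1 := by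
    rw [psum_eq (by norm_num) (by norm_num : 495 ≤ 512)] at h3
    have h511 : (512 : ℕ) < 2 ^ 511 := by
      calc (512 : ℕ) < 2 ^ 10 := by norm_num
        _ ≤ 2 ^ 511 := Nat.pow_le_pow_right (by norm_num) (by norm_num)
    refine forall_lt (by norm_num) ?_ (fun i _ => lt_of_le_of_lt (pcb_le _ _) ?_) h3
    · show c + 1 ≤ 2 ^ 511
      omega
    · show 495 < 2 ^ 511
      omega
  set v := fld 512 X i with hv
  have hvlt := hlt i
  set e := v % 2 ^ 495 with he
  have helt : e < 2 ^ 495 := Nat.mod_lt _ (Nat.two_pow_pos _)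
  have hbit : ∀ q < 495, v.testBit q = e.testBit q := by
    intro q hq
    rw [he, Nat.testBit_mod_two_pow, decide_eq_true hq, Bool.true_and]
  set D := fam 12 4 e with hD
  have hE : enc 12 4 D = e := enc_fam (by norm_num) helt
  have hodd : OddFam 3 (below 12) D := by
    refine oddFam_of_parL helt ?_
    have h5 := parX_sound (W := 512) (by norm_num) hi abv12 0
      (fun l hl q hq => by have := abv12_lt l hl q hq; omega) h2
    rw [parL_iff] at h5 ⊢
    intro k hk
    rw [← h5 k hk]
    exact Pool.Agent.Helper69.TY.xb_congr fun q hq =>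
      (hbit q (abv12_lt _ (List.getElem_mem hk) q hq)).symm
  have hcardD : ∀ i < N, (fam 12 4 (fld 512 X i % 2 ^ 495)).card ≤ c := by
    intro i hi
    rw [card_eq_pcb (Nat.mod_lt _ (Nat.two_pow_pos _))]
    have h5 := hcard i hi
    rw [pcb_congr (e' := fld 512 X i) (fun q hq => by
      rw [Nat.testBit_mod_two_pow, decide_eq_true hq, Bool.true_and])]
    omega
  have hpc : ∀ i < N, ∀ a, ∀ ha : a < star12.length, pcL (fld 512 X i) star12[a] =
      (link (fam 12 4 (fld 512 X i % 2 ^ 495)) ⟨a, by rw [length_star12] at ha; omega⟩).card := by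
    intro i hi a ha
    have ha' := ha
    rw [length_star12] at ha'
    rw [card_link_eq_pcL (Nat.mod_lt _ (Nat.two_pow_pos _)) ha']
    refine pcL_congr fun q hq => ?_
    rw [Nat.testBit_mod_two_pow, decide_eq_true (star12_lt _ (List.getElem_mem ha) q hq),
      Bool.true_and]
  have h6 : D.card ≤ c := hcardD i hi
  refine ⟨D, hodd, by omega, ?_⟩
  refine Nat.eq_of_testBit_eq fun j => ?_
  rw [testBit_code]
  by_cases hj : j < 495
  · rw [if_pos hj, hE, hbit j hj]
  · rw [if_neg hj]
    by_cases hj2 : j < 507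
    · obtain ⟨a, rfl⟩ : ∃ a, j = 495 + a := ⟨j - 495, by omega⟩
      have h5 := zsOK_sound (X := X) hi star12 0 (by rw [length_star12]) star12_lt
        (fun row hrow i hi => by
          obtain ⟨a, ha, rfl⟩ := List.mem_iff_getElem.1 hrow
          rw [hpc i hi a ha]
          exact lt_of_le_of_lt (card_link_le _ _) (by have := hcardD i hi; omega)) h4 a
          (by rw [length_star12]; omega)
      rw [Nat.zero_add] at h5
      rw [h5, Nat.add_sub_cancel_left, testBit_zs D (by omega), hpc i hi]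
    · rw [Nat.testBit_lt_two_pow (lt_of_lt_of_le hvlt (Nat.pow_le_pow_right (by norm_num)
        (by omega)))]
      have h5 : enc 12 1 (zs D) < 2 ^ 12 := enc_lt 12 1 _
      rw [Nat.testBit_lt_two_pow (lt_of_lt_of_le h5 (Nat.pow_le_pow_right (by norm_num)
        (by omega)))]

/-! ## entries -/

/-- the packed list of the entries with certificates `vs` -/
def ents (R : ℕ) (tv : ℕ → ℕ) (vs : List ℕ) : ℕ :=
  runN R net (packL 512 vs) (packL 512 (vs.map fun v => tv (Nat.shiftRight v 66)))

/-- a relabelled class -/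
def IsRel (nc : ℕ) (tv : ℕ → ℕ) (D : Finset (Finset (Fin 13))) : Prop :=
  ∃ σ : Equiv.Perm (Fin 13), σ 12 = 12 ∧ ∃ j < nc, mapF σ D = fam 12 4 (tv j % 2 ^ 495)

theorem below_mapS {σ : Equiv.Perm (Fin 13)} (hσ : σ 12 = 12) : mapS σ (below 12) = below 12 := by
  ext a
  rw [mem_mapS', mem_below', mem_below']
  have h := lt_twelve_of_fix hσ (a := σ.symm a)
  rw [Equiv.apply_symm_apply] at h
  exact h.symm

theorem fam_of_code {D : Finset (Finset (Fin 13))} (hD : OddFam 3 (below 12) D)
    (S : Finset (Finset (Fin 13))) : fam 12 4 (code D S % 2 ^ 495) = D := by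
  rw [code_mod, fam_enc (by norm_num)]
  intro s hs
  exact Pool.Agent.Helper82.TY.sub_iff_below.2 (hD.1 s hs)

/-- the entries -/
theorem ents_sound {N nc cap : ℕ} {tv : ℕ → ℕ} (htv : ∀ j < nc, Good cap (tv j)) {vs : List ℕ}
    (hvs : allLt (Nat.mul nc (2 ^ 66)) vs = true) (hN : vs.length = N) {i : ℕ} (hi : i < N) :
    ∃ D : Finset (Finset (Fin 13)), OddFam 3 (below 12) D ∧ 2 * D.card ≤ 114 + cap ∧
      IsRel nc tv D ∧ fld 512 (ents (rep 512 N) tv vs) i = code D (zs D) := by
  have hlt : ∀ v ∈ vs, v >>> 66 < nc := by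
    intro v hv
    have h1 : v < nc * 2 ^ 66 := lt_of_allLt hvs v hv
    rw [Nat.shiftRight_eq_div_pow]
    exact Nat.div_lt_of_lt_mul (by rw [Nat.mul_comm]; exact h1)
  have hi' : i < vs.length := by omega
  obtain ⟨D, h1, h2, h3⟩ := htv _ (hlt _ (List.getElem_mem hi'))
  have hlt2 : ∀ a ∈ vs.map fun v => tv (Nat.shiftRight v 66), a < 2 ^ 512 := by
    intro a ha
    rw [List.mem_map] at ha
    obtain ⟨v, hv, rfl⟩ := ha
    obtain ⟨D, -, -, h3⟩ := htv _ (hlt _ hv)
    have e : Nat.shiftRight v 66 = v >>> 66 := rfl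
    rw [e, h3]
    exact lt_trans (code_lt _ _) (Nat.pow_lt_pow_right (by norm_num) (by norm_num))
  have hX : fld 512 (packL 512 (vs.map fun v => tv (Nat.shiftRight v 66))) i = code D (zs D) := by
    rw [fld_packL hlt2 (by rw [List.length_map]; exact hi'), List.getElem_map]
    exact h3
  obtain ⟨σ, hσ, h4⟩ := net_sound (P := packL 512 vs) hi hX
  refine ⟨mapF σ D, ?_, by rw [card_mapF]; exact h2, ?_, ?_⟩
  · have h5 := h1.map σ
    rw [below_mapS hσ] at h5
    exact h5
  · refine ⟨σ.symm, by rw [Equiv.symm_apply_eq, hσ], _, hlt _ (List.getElem_mem hi'), ?_⟩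
    rw [mapF_symm_mapF, h3, fam_of_code h1]
  · unfold ents
    rw [h4, zs_mapF hσ]

/-! ## the segments of a run -/

/-- the family of the entry `e` with link `T` at `11` -/
def eF (T e : ℕ) : Finset (Finset (Fin 13)) := fam 12 4 (e + 2 ^ 330 * T)

/-- the entries of a run -/
def Sol (T m : ℕ) (forb : List ℕ) (cap e : ℕ) : Prop :=
  e < 2 ^ 330 ∧ OddFam 3 (below 12) (eF T e) ∧ link (eF T e) 11 = fam 11 3 T ∧
    2 * (eF T e).card ≤ 114 + cap ∧ ZD (eF T e) m ∧ ∀ q ∈ forb, ¬ ZD (eF T e) q

/-- `K` entries in `[lo, hi)` which are relabelled classes -/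
def Seg (nc : ℕ) (tv : ℕ → ℕ) (T m : ℕ) (forb : List ℕ) (cap lo hi K : ℕ) : Prop :=
  ∃ F : Finset ℕ, F.card = K ∧ ∀ e ∈ F, (lo ≤ e ∧ e < hi) ∧ Sol T m forb cap e ∧
    IsRel nc tv (eF T e)

theorem Seg.append {nc : ℕ} {tv : ℕ → ℕ} {T m : ℕ} {forb : List ℕ} {cap a b c K K' : ℕ}
    (h : Seg nc tv T m forb cap a b K) (h' : Seg nc tv T m forb cap b c K') (hab : a ≤ b)
    (hbc : b ≤ c) : Seg nc tv T m forb cap a c (K + K') := by
  classical
  obtain ⟨F, h1, h2⟩ := h
  obtain ⟨F', h3, h4⟩ := h'
  refine ⟨F ∪ F', ?_, ?_⟩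
  · rw [card_union_of_disjoint, h1, h3]
    rw [disjoint_left]
    intro e he he'
    have h5 := (h2 e he).1.2
    have h6 := (h4 e he').1.1
    omega
  · intro e he
    rw [mem_union] at he
    rcases he with he | he
    · exact ⟨⟨(h2 e he).1.1, by have := (h2 e he).1.2; omega⟩, (h2 e he).2⟩
    · exact ⟨⟨by have := (h4 e he).1.1; omega, (h4 e he).1.2⟩, (h4 e he).2⟩

theorem eF_enc {T : ℕ} {D : Finset (Finset (Fin 13))} (hD : OddFam 3 (below 12) D)
    (hT : link D 11 = fam 11 3 T) (hTlt : T < 2 ^ 165) :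
    enc 12 4 D % 2 ^ 330 < 2 ^ 330 ∧ eF T (enc 12 4 D % 2 ^ 330) = D := by
  have h1 := enc_split (11 : Fin 13) 3 D
  have h2 : enc 11 3 (link D 11) = T := by
    rw [hT]
    exact enc_fam (by norm_num) hTlt
  have h3 : enc 12 4 D = enc 11 4 D + 2 ^ 330 * T := by
    rw [← h2]
    exact h1
  have h4 : enc 11 4 D < 2 ^ 330 := enc_lt 11 4 D
  have h5 : enc 12 4 D % 2 ^ 330 = enc 11 4 D := by
    rw [h3, Nat.add_mul_mod_self_left, Nat.mod_eq_of_lt h4]
  refine ⟨Nat.mod_lt _ (Nat.two_pow_pos _), ?_⟩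
  unfold eF
  rw [h5, ← h3, fam_enc (by norm_num)]
  intro s hs
  exact Pool.Agent.Helper82.TY.sub_iff_below.2 (hD.1 s hs)

/-- **a run from its list and the bound for the number of entries** -/
theorem runR_of_seg {nc : ℕ} {tv : ℕ → ℕ} {T m : ℕ} {forb : List ℕ} {cap K : ℕ}
    (hTlt : T < 2 ^ 165) (h : Seg nc tv T m forb cap 0 (2 ^ 330) K)
    (hK : CountLe (Sol T m forb cap) K) : RunR T m forb cap (IsRel nc tv) := by
  classical
  intro D hD hT hc hm hforb
  obtain ⟨F, h1, h2⟩ := h
  obtain ⟨h3, h4⟩ := eF_enc hD hT hTlt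
  set e := enc 12 4 D % 2 ^ 330
  have hS : Sol T m forb cap e := by
    unfold Sol
    rw [h4]
    exact ⟨h3, hD, hT, hc, hm, hforb⟩
  by_cases he : e ∈ F
  · have h5 := (h2 e he).2.2
    rw [h4] at h5
    exact h5
  · have h5 := hK (insert e F) (by
      intro x hx
      rcases mem_insert.1 hx with rfl | hx
      · exact hS
      · exact (h2 x hx).2.1)
    rw [card_insert_of_notMem he, h1] at h5
    omega

end Pool.Agent.Helper16.TY
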