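import Pool.Agent.Helper16.TY.Seg

/-!
MP_8ee768_co, project TH-Y': the kernel check of a segment.

`segOK nc tv T m forb cap lo hi N vs = true` gives `Seg nc tv T m forb cap lo hi N` (`segOK_sound`).
-/

set_option autoImplicit false
set_option maxRecDepth 100000

namespace Pool.Agent.Helper16.TY

open Finset
open Pool.Agent.Helper89.CV (OddCover ofMask)
open Pool.Agent.Helper97.CV
open Pool.Agent.Helper79.CV
open Pool.Agent.Helper63.SIMD
open Pool.Agent.Helper91.TY
open Pool.Agent.Helper82.TY (below)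
open Pool.Agent.Helper69.TY (psum psum_eq pcb pcb_le incr incr_sound strict_lt CountLe)
open Pool.Agent.Helper67.TY (ZD RunR)

/-- unpacking: `n` fields of width `w` -/
def unp (w n : ℕ) : ℕ → List ℕ :=
  Nat.rec (motive := fun _ => ℕ → List ℕ) (fun _ => [])
    (fun _ ih X => Nat.mod X (2 ^ w) :: ih (Nat.shiftRight X w)) n

/-- the points of the mask `q` -/
def pts (q : ℕ) : List ℕ := (List.range 12).filter fun a => Nat.testBit q a

/-- bit 0 of a lane: all the zero bits of the list are set -/
def landAll (X R : ℕ) : List ℕ → ℕ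
  | [] => R
  | a :: l => Nat.land (Nat.shiftRight X (Nat.add 495 a)) (landAll X R l)

/-- the cap -/
def capOK (N cap E R : ℕ) : Bool :=
  Nat.ble 6 cap || Nat.beq (geT 512 N (Nat.add 58 (Nat.div cap 2)) (psum E R 495)) 0

/-- the check of the entries -/
def entOK (T m : ℕ) (forb : List ℕ) (cap lo hi N R E : ℕ) : Bool :=
  Nat.beq (Nat.land (Nat.shiftRight E 330) (Nat.mul (2 ^ 165 - 1) R)) (Nat.mul T R) &&
  (Nat.beq (Nat.land E (Nat.mul (Nat.shiftLeft m 495) R)) (Nat.mul (Nat.shiftLeft m 495) R) &&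
  (forb.all (fun q => Nat.beq (landAll E R (pts q)) 0) && (capOK N cap E R &&
  Pool.Agent.Helper69.TY.force (Nat.land E (Nat.mul (2 ^ 330 - 1) R)) fun Y =>
    incr 512 N Y && (Nat.ble lo (Nat.mod Y (2 ^ 512)) &&
      Nat.blt (Nat.mod (Nat.shiftRight Y (Nat.mul 512 (Nat.sub N 1))) (2 ^ 512)) hi))))

/-- **the check of a segment** -/
def segOK (nc : ℕ) (tv : ℕ → ℕ) (T m : ℕ) (forb : List ℕ) (cap lo hi N : ℕ) (vs : List ℕ) : Bool :=
  Nat.blt 0 N && (Nat.beq vs.length N && (allLt (Nat.mul nc (2 ^ 66)) vs &&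
  Pool.Agent.Helper69.TY.force (rep 512 N) fun R =>
  Pool.Agent.Helper69.TY.force (ents R tv vs) fun E => entOK T m forb cap lo hi N R E))

theorem testBit_rep_zero {N i : ℕ} (hi : i < N) : (rep 512 N).testBit (512 * i) = true := by
  have h := testBit_mul_rep (W := 512) (N := N) (M := 1) (by norm_num)
    (Nat.one_lt_two_pow (by norm_num)) (512 * i)
  rw [Nat.one_mul] at h
  rw [h, Nat.mul_mod_right]
  simp [hi]

theorem testBit_mul_rep_lane {N i M t : ℕ} (hi : i < N) (hM : M < 2 ^ 512) (ht : t < 512) :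
    (M * rep 512 N).testBit (512 * i + t) = M.testBit t := by
  rw [testBit_mul_rep (by norm_num) hM, Nat.mul_add_mod, Nat.mod_eq_of_lt ht, decide_eq_true,
    Bool.true_and]
  omega

theorem testBit_fld_lt {X i t : ℕ} (ht : t < 512) :
    (fld 512 X i).testBit t = X.testBit (512 * i + t) := by
  rw [testBit_fld, decide_eq_true ht, Bool.true_and]

theorem top_sound {N i T E : ℕ} (hi : i < N) (hT : T < 2 ^ 165)
    (h : (E >>> 330) &&& (2 ^ 165 - 1) * rep 512 N = T * rep 512 N) {t : ℕ} (ht : t < 165) :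
    (fld 512 E i).testBit (330 + t) = T.testBit t := by
  have h1 := congrArg (fun v => Nat.testBit v (512 * i + t)) h
  simp only [Nat.testBit_and, Nat.testBit_shiftRight] at h1
  rw [testBit_mul_rep_lane hi (lt_of_lt_of_le (Nat.sub_lt (Nat.two_pow_pos 165) Nat.one_pos)
      (Nat.pow_le_pow_right (by norm_num) (by norm_num))) (by omega),
    testBit_mul_rep_lane hi (lt_trans hT (Nat.pow_lt_pow_right (by norm_num) (by norm_num)))
      (by omega), Nat.testBit_two_pow_sub_one, decide_eq_true ht, Bool.and_true] at h1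
  rw [testBit_fld_lt (by omega), ← h1]
  congr 1
  omega

theorem m_sound {N i m E : ℕ} (hi : i < N) (hm : m < 2 ^ 12)
    (h : E &&& (m <<< 495) * rep 512 N = (m <<< 495) * rep 512 N) {a : ℕ}
    (ha : m.testBit a = true) : (fld 512 E i).testBit (495 + a) = true := by
  have h12 : a < 12 := by
    by_contra h1
    rw [Nat.testBit_lt_two_pow (lt_of_lt_of_le hm (Nat.pow_le_pow_right (by norm_num)
      (by omega)))] at ha
    exact Bool.false_ne_true ha
  have hlt : m <<< 495 < 2 ^ 512 := by
    rw [Nat.shiftLeft_eq]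
    calc m * 2 ^ 495 < 2 ^ 12 * 2 ^ 495 := Nat.mul_lt_mul_of_pos_right hm (Nat.two_pow_pos _)
      _ = 2 ^ 507 := by rw [← pow_add]
      _ ≤ 2 ^ 512 := Nat.pow_le_pow_right (by norm_num) (by norm_num)
  have h1 := congrArg (fun v => Nat.testBit v (512 * i + (495 + a))) h
  simp only [Nat.testBit_and] at h1
  rw [testBit_mul_rep_lane hi hlt (by omega)] at h1
  have h2 : (m <<< 495).testBit (495 + a) = true := by
    rw [Nat.testBit_shiftLeft, Nat.add_sub_cancel_left, ha]
    simp
  rw [h2, Bool.and_true] at h1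
  rw [testBit_fld_lt (by omega)]
  exact h1

theorem landAll_bit {N i E : ℕ} (hi : i < N) {l : List ℕ} (hl : ∀ a ∈ l, a < 12) :
    (landAll E (rep 512 N) l).testBit (512 * i) =
      l.all fun a => (fld 512 E i).testBit (495 + a) := by
  induction l with
  | nil => exact testBit_rep_zero hi
  | cons a l ih =>
    have e : landAll E (rep 512 N) (a :: l) = (E >>> (495 + a)) &&& landAll E (rep 512 N) l := rfl
    rw [e, Nat.testBit_and, ih (fun b hb => hl b (List.mem_cons_of_mem _ hb)),
      Nat.testBit_shiftRight, List.all_cons]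
    have := hl a List.mem_cons_self
    rw [testBit_fld_lt (by omega)]
    congr 2
    omega

theorem forb_sound {N i q E : ℕ} (hi : i < N) (h : landAll E (rep 512 N) (pts q) = 0) :
    ∃ a, q.testBit a = true ∧ (fld 512 E i).testBit (495 + a) = false := by
  have hl : ∀ a ∈ pts q, a < 12 := fun a ha => List.mem_range.1 (List.mem_filter.1 ha).1
  have h1 := landAll_bit (E := E) hi hl
  rw [h, Nat.zero_testBit] at h1
  have h2 := h1.symm
  rw [List.all_eq_false] at h2
  obtain ⟨a, ha, h3⟩ := h2
  refine ⟨a, ?_, by simpa using h3⟩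
  exact (List.mem_filter.1 ha).2

theorem fld_low {N i E : ℕ} (hi : i < N) :
    fld 512 (E &&& (2 ^ 330 - 1) * rep 512 N) i = fld 512 E i % 2 ^ 330 := by
  refine Nat.eq_of_testBit_eq fun t => ?_
  rw [Nat.testBit_mod_two_pow]
  by_cases ht : t < 512
  · rw [testBit_fld_lt ht, testBit_fld_lt ht, Nat.testBit_and,
      testBit_mul_rep_lane hi (lt_of_lt_of_le (Nat.sub_lt (Nat.two_pow_pos 330) Nat.one_pos)
      (Nat.pow_le_pow_right (by norm_num) (by norm_num))) ht, Nat.testBit_two_pow_sub_one,
      Bool.and_comm]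
  · rw [testBit_fld, testBit_fld, decide_eq_false ht, Bool.false_and, Bool.false_and,
      Bool.and_false]

theorem low_lt {N E : ℕ} : E &&& (2 ^ 330 - 1) * rep 512 N < 2 ^ (512 * N) := by
  have h1 : (2 ^ 330 - 1) * rep 512 N < 2 ^ (512 * N) := by
    rw [mul_rep (by norm_num)]
    exact pk_lt fun _ _ => lt_of_lt_of_le (Nat.sub_lt (Nat.two_pow_pos 330) Nat.one_pos)
      (Nat.pow_le_pow_right (by norm_num) (by norm_num))
  exact lt_of_le_of_lt Nat.and_le_right h1

/-- **soundness of the check of the entries** -/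
theorem entOK_sound {nc : ℕ} {tv : ℕ → ℕ} {T m : ℕ} {forb : List ℕ} {cap lo hi N E : ℕ}
    (hT : T < 2 ^ 165) (hm : m < 2 ^ 12) (hforb : ∀ q ∈ forb, q < 2 ^ 12) (hN : 0 < N)
    (hE : ∀ i < N, ∃ D : Finset (Finset (Fin 13)), OddFam 3 (below 12) D ∧ 2 * D.card ≤ 114 + 6 ∧
      IsRel nc tv D ∧ fld 512 E i = code D (zs D))
    (h : entOK T m forb cap lo hi N (rep 512 N) E = true) :
    Seg nc tv T m forb cap lo hi N := by
  classical
  unfold entOK at h
  rw [Bool.and_eq_true, Bool.and_eq_true, Bool.and_eq_true, Bool.and_eq_true, Nat.beq_eq,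
    Nat.beq_eq, Pool.Agent.Helper69.TY.force_eq, Bool.and_eq_true, Bool.and_eq_true, Nat.ble_eq,
    Nat.blt_eq] at h
  obtain ⟨h1, h2, h3, h4, h5, h6, h7⟩ := h
  have h1' : (E >>> 330) &&& (2 ^ 165 - 1) * rep 512 N = T * rep 512 N := h1
  have h2' : E &&& (m <<< 495) * rep 512 N = (m <<< 495) * rep 512 N := h2
  set Y := E &&& (2 ^ 330 - 1) * rep 512 N with hY
  have h5' : incr 512 N Y = true := h5
  have h6' : lo ≤ Y % 2 ^ 512 := h6
  have h7' : (Y >>> (512 * (N - 1))) % 2 ^ 512 < hi := h7
  have hYlt : Y < 2 ^ (512 * N) := low_lt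
  have hfl : ∀ i < N, fld 512 Y i = fld 512 E i % 2 ^ 330 := fun i hi => fld_low hi
  have hf330 : ∀ i < N, fld 512 Y i < 2 ^ 330 := fun i hi => by
    rw [hfl i hi]
    exact Nat.mod_lt _ (Nat.two_pow_pos _)
  have hinc : ∀ i, i + 1 < N → fld 512 Y i < fld 512 Y (i + 1) := by
    refine incr_sound (W := 512) (N := N) (a := fld 512 Y) (by norm_num)
      (fun i hi => lt_of_lt_of_le (hf330 i hi)
      (Nat.pow_le_pow_right (by norm_num) (by norm_num))) ?_
    rw [pk_fld hYlt]
    exact h5'
  have hst := strict_lt hinc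
  have hlo : ∀ i < N, lo ≤ fld 512 Y i := by
    intro i hi
    have h0 : lo ≤ fld 512 Y 0 := by
      unfold fld
      rw [Nat.mul_zero, pow_zero, Nat.div_one]
      exact h6'
    rcases Nat.eq_zero_or_pos i with h8 | h8
    · rw [h8]
      exact h0
    · exact h0.trans (hst i hi 0 h8).le
  have hhi : ∀ i < N, fld 512 Y i < hi := by
    intro i hi'
    have h0 : fld 512 Y (N - 1) < hi := by
      unfold fld
      rw [← Nat.shiftRight_eq_div_pow]
      exact h7'
    rcases Nat.lt_or_ge i (N - 1) with h8 | h8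
    · exact (hst (N - 1) (by omega) i h8).trans h0
    · have : i = N - 1 := by omega
      rw [this]
      exact h0
  refine ⟨(range N).image (fld 512 Y), ?_, ?_⟩
  · rw [card_image_of_injOn, card_range]
    intro i hi j hj hij
    rw [mem_coe, mem_range] at hi hj
    rcases Nat.lt_trichotomy i j with h8 | h8 | h8
    · exact absurd hij (hst j hj i h8).ne
    · exact h8
    · exact absurd hij (hst i hi j h8).ne'
  · intro e he
    rw [mem_image] at he
    obtain ⟨i, hi', rfl⟩ := he
    have hi := mem_range.1 hi'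
    obtain ⟨D, hD, hc, hrel, hfld⟩ := hE i hi
    have hbits : ∀ s ∈ D, Sub 12 4 s := fun s hs =>
      Pool.Agent.Helper82.TY.sub_iff_below.2 (hD.1 s hs)
    -- the link
    have hlink : link D 11 = fam 11 3 T := by
      have e1 : enc 12 4 D >>> 330 = enc 11 3 (link D 11) := enc_shift (11 : Fin 13) 3 D
      have e2 : enc 11 3 (link D 11) = T := by
        refine Nat.eq_of_testBit_eq fun t => ?_
        by_cases ht : t < 165
        · have h8 := top_sound hi hT h1' ht
          rw [hfld, testBit_code, if_pos (by omega)] at h8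
          rw [← e1, Nat.testBit_shiftRight]
          exact h8
        · have h9 : enc 11 3 (link D 11) < 2 ^ 165 := enc_lt 11 3 _
          rw [Nat.testBit_lt_two_pow (lt_of_lt_of_le h9 (Nat.pow_le_pow_right (by norm_num)
            (by omega))), Nat.testBit_lt_two_pow (lt_of_lt_of_le hT
            (Nat.pow_le_pow_right (by norm_num) (by omega)))]
      rw [← e2, fam_enc (by norm_num)]
      intro s hs
      have h8 := (hD.link (mem_below'.2 (by decide) : (11 : Fin 13) ∈ below 12)).1 s hs
      have e3 : (below 12).erase 11 = below 11 := by decide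
      rw [e3] at h8
      exact Pool.Agent.Helper82.TY.sub_iff_below.2 h8
    obtain ⟨h9, h10⟩ := eF_enc hD hlink hT
    have e4 : fld 512 Y i = enc 12 4 D % 2 ^ 330 := by
      rw [hfl i hi, hfld]
      unfold code
      have e5 : (2 : ℕ) ^ 495 * enc 12 1 (zs D) = 2 ^ 330 * (2 ^ 165 * enc 12 1 (zs D)) := by
        rw [← Nat.mul_assoc, ← pow_add]
      rw [e5, Nat.mul_add_mod]
    rw [e4]
    refine ⟨⟨by rw [← e4]; exact hlo i hi, by rw [← e4]; exact hhi i hi⟩, ?_, by rw [h10]; exact hrel⟩
    unfold Sol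
    rw [h10]
    refine ⟨h9, hD, hlink, ?_, ?_, ?_⟩
    · unfold capOK at h4
      rw [Bool.or_eq_true, Nat.ble_eq, Nat.beq_eq] at h4
      rcases h4 with h4 | h4
      · omega
      · rw [psum_eq (by norm_num) (by norm_num : 495 ≤ 512)] at h4
        have h511 : (512 : ℕ) < 2 ^ 511 := by
          calc (512 : ℕ) < 2 ^ 10 := by norm_num
            _ ≤ 2 ^ 511 := Nat.pow_le_pow_right (by norm_num) (by norm_num)
        by_cases hcap : cap < 6
        · have h11 : ∀ i < N, pcb (fld 512 E i) 495 < 58 + cap / 2 := by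
            refine forall_lt (by norm_num) ?_ (fun i _ => lt_of_le_of_lt (pcb_le _ _) ?_) h4
            · show 58 + cap / 2 ≤ 2 ^ 511
              omega
            · show 495 < 2 ^ 511
              omega
          have h12 := h11 i hi
          have h13 : D.card = pcb (fld 512 E i) 495 := by
            have h14 : fam 12 4 (enc 12 4 D) = D := fam_enc (by norm_num) hbits
            have h15 := card_eq_pcb (e := enc 12 4 D) (enc_lt 12 4 D)
            rw [h14] at h15
            rw [h15, hfld]
            refine pcb_congr fun q hq => ?_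
            rw [testBit_code, if_pos hq]
          omega
        · omega
    · rw [zd_iff hm]
      intro a ha
      rw [← hfld]
      exact m_sound hi hm h2' ha
    · intro q hq hz
      rw [List.all_eq_true] at h3
      have h11 := h3 q hq
      rw [Nat.beq_eq] at h11
      obtain ⟨a, ha, h12⟩ := forb_sound hi h11
      rw [zd_iff (hforb q hq)] at hz
      have h13 := hz a ha
      rw [← hfld, h12] at h13
      exact Bool.false_ne_true h13

/-- **soundness of the check of a segment** -/
theorem segOK_sound {nc : ℕ} {tv : ℕ → ℕ} (htv : ∀ j < nc, Good 6 (tv j)) {T m : ℕ}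
    {forb : List ℕ} {cap lo hi N : ℕ} {vs : List ℕ} (hT : T < 2 ^ 165) (hm : m < 2 ^ 12)
    (hforb : ∀ q ∈ forb, q < 2 ^ 12) (h : segOK nc tv T m forb cap lo hi N vs = true) :
    Seg nc tv T m forb cap lo hi N := by
  unfold segOK at h
  rw [Pool.Agent.Helper69.TY.force_eq, Pool.Agent.Helper69.TY.force_eq, Bool.and_eq_true,
    Bool.and_eq_true, Bool.and_eq_true, Nat.blt_eq, Nat.beq_eq] at h
  obtain ⟨h1, h2, h3, h4⟩ := h
  exact entOK_sound hT hm hforb h1 (fun i hi => ents_sound htv h3 h2 hi) h4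

end Pool.Agent.Helper16.TY
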