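import Pool.Agent.Helper16.TY.SegC

/-!
MP_8ee768_co, project TH-Y': binary trees of packed groups of table values.
-/

set_option autoImplicit false

namespace Pool.Agent.Helper16.TY

open Pool.Agent.Helper63.SIMD

/-- binary tree of numbers -/
inductive Tr : Type
  | lf (n : ℕ) : Tr
  | nd (a b : Tr) : Tr

/-- the leaf at the path given by the bits of `j`, lowest bit first -/
noncomputable def Tr.get (t : Tr) : ℕ → ℕ :=
  Tr.rec (motive := fun _ => ℕ → ℕ) (fun n _ => n)
    (fun _ _ a b j => bif Nat.beq (Nat.land j 1) 0 then a (Nat.shiftRight j 1)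
      else b (Nat.shiftRight j 1)) t

/-- all leaves -/
def Tr.All (P : ℕ → Prop) : Tr → Prop
  | .lf n => P n
  | .nd a b => a.All P ∧ b.All P

theorem Tr.all_get {P : ℕ → Prop} {t : Tr} (h : t.All P) (j : ℕ) : P (t.get j) := by
  induction t generalizing j with
  | lf n => exact h
  | nd a b iha ihb =>
    have e : (Tr.nd a b).get j = bif Nat.beq (Nat.land j 1) 0 then a.get (Nat.shiftRight j 1)
      else b.get (Nat.shiftRight j 1) := rfl
    rw [e]
    cases Nat.beq (Nat.land j 1) 0
    · exact ihb h.2 _
    · exact iha h.1 _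

/-- evaluation of the argument first -/
def forceN (n : ℕ) (f : ℕ → ℕ) : ℕ := Nat.rec (f 0) (fun k _ => f (Nat.succ k)) n

theorem forceN_eq (n : ℕ) (f : ℕ → ℕ) : forceN n f = f n := by cases n <;> rfl

/-- value `j` of a tree of groups of 248 values of 512 bits; the index of the group is evaluated
first, so that the kernel finds the group in its cache -/
noncomputable def val (t : Tr) (j : ℕ) : ℕ :=
  forceN (Nat.div j 248) fun k =>
    Nat.land (Nat.shiftRight (t.get k) (Nat.mul 512 (Nat.mod j 248))) (2 ^ 512 - 1)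

theorem val_eq (t : Tr) (j : ℕ) : val t j = fld 512 (t.get (j / 248)) (j % 248) := by
  have e : val t j = ((t.get (j / 248)) >>> (512 * (j % 248))) &&& (2 ^ 512 - 1) := by
    unfold val
    rw [forceN_eq]
    rfl
  rw [e, Nat.and_two_pow_sub_one_eq_mod, Nat.shiftRight_eq_div_pow]
  rfl

/-- all 248 values of a group are good -/
def GoodG (cap n : ℕ) : Prop := ∀ i < 248, Good cap (fld 512 n i)

theorem good_val {cap : ℕ} {t : Tr} (h : t.All (GoodG cap)) (j : ℕ) : Good cap (val t j) := by
  rw [val_eq]
  exact Tr.all_get h _ _ (Nat.mod_lt _ (by norm_num))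

theorem goodG_of_ok {n : ℕ} (h : goodX 248 60 n = true) : GoodG 6 n :=
  fun _ hi => goodX_sound (by norm_num) (by norm_num) h hi

end Pool.Agent.Helper16.TY
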