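import Pool.Agent.Helper77.TY.V3F
import Pool.Agent.Helper41.TY.ExN

/-!
MP_8ee768_co, project TH-Y', stage 0: the calculus of the parts of a sub-run.

`Closed zm C`: the property `C N K` of a state `N` and a number `K` holds for every part which
passes the test `V3F.part` and whose calls have the property. The generated modules derive the
property of the root state of a sub-run from the tests of all its parts.
-/

set_option autoImplicit false

namespace Pool.Agent.Helper16.TY.V3C

open Pool.Agent.Helper77.TY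

/-- all calls in the list have the property -/
def Calls (C : ℕ → ℕ → Prop) (J : List ((ℕ × ℕ) × ℕ)) : Prop :=
  @List.rec ((ℕ × ℕ) × ℕ) (fun _ => Prop) True (fun j _ ih => C j.1.1 j.1.2 ∧ ih) J

/-- the property is inherited by the parts which pass the test -/
def Closed (zm : ℕ) (C : ℕ → ℕ → Prop) : Prop :=
  ∀ (J : List ((ℕ × ℕ) × ℕ)) (j : ℕ × ℕ) (T : ℕ),
    V3F.part zm J j T = true → Calls C J → C j.1 j.2

theorem Closed.part {zm : ℕ} {C : ℕ → ℕ → Prop} (h : Closed zm C) (J : List ((ℕ × ℕ) × ℕ))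
    (T : ℕ) {N K : ℕ} (p : V3F.part zm J (N, K) T = true) (c : Calls C J) : C N K :=
  h J (N, K) T p c

/-- a stream in pieces of 2000 bits, high pieces first -/
def cat (a b : ℕ) : ℕ := Nat.lor (Nat.shiftLeft a (nat_lit 2000)) b

theorem calls_nil (C : ℕ → ℕ → Prop) : Calls C [] ↔ True := Iff.rfl

theorem calls_cons (C : ℕ → ℕ → Prop) (j : (ℕ × ℕ) × ℕ) (J : List ((ℕ × ℕ) × ℕ)) :
    Calls C (j :: J) ↔ C j.1.1 j.1.2 ∧ Calls C J := Iff.rfl

theorem calls_iff (C : ℕ → ℕ → Prop) (J : List ((ℕ × ℕ) × ℕ)) :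
    Calls C J ↔ ∀ j ∈ J, C j.1.1 j.1.2 := by
  induction J with
  | nil => simp [calls_nil]
  | cons j J ih => rw [calls_cons, ih, List.forall_mem_cons]

end Pool.Agent.Helper16.TY.V3C
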