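import Pool.Agent.Helper16.TY.V3C
import Pool.Agent.Helper58.TB.Zok
import Pool.Agent.Helper39.TY.Subs

/-!
MP_8ee768_co, project TH-Y', stage 0: the claims of helper58 are closed under the parts, and the
bound of a sub-run from the parts and the check of its root.
-/

set_option autoImplicit false

namespace Pool.Agent.Helper16.TY.V3C

open Pool.Agent.Helper77.TY
open Pool.Agent.Helper58.TI
open Pool.Agent.Helper58.TB (CountSub)
open Pool.Agent.Helper69.TY (pcb)
open Pool.Agent.Helper33.TY.Root (rootB root_ok)

/-- the claims are closed under the parts -/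
theorem closed_cl {T Z F cap zm : ℕ} (z : ZOK T Z F cap zm) : Closed zm (Cl T Z F cap) :=
  fun _ _ _ p c => part_ok z p c

/-- **a sub-run from its parts and its root** -/
theorem sub_ok {T Z F cap zm N K : ℕ} (r : rootB T Z F cap zm N = true) (hT : pcb T 165 = 19)
    (hcap : cap ≤ 6) (run : ∀ C : ℕ → ℕ → Prop, Closed zm C → C N K) : CountSub T Z F cap K :=
  root_ok (run (Cl T Z F cap) (closed_cl (zok r hT hcap))) r

end Pool.Agent.Helper16.TY.V3C
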